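import Pool.Agent.Helper60.AS.Defs

/-!
# AS-ELIM: elimination of one variable

`F` irreducible of positive degree in `X k`, `G` not divisible by `F`. Regard both as polynomials in
`X k` over `A = ℝ[the two other variables]` (a UFD; rename by the permutation swapping `0` and `k` and
use `MvPolynomial.finSuccEquiv`). `F` is primitive (irreducible of positive degree), hence
irreducible over `Frac A` (Gauss) and does not divide `G` there, so `F, G` are coprime over `Frac A`;
clear denominators in the Bezout identity.
-/

set_option autoImplicit false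

namespace Pool.Agent.Helper60.AS

open MvPolynomial

/-- Elimination over a factorial domain: an irreducible polynomial of positive degree and a
polynomial which it does not divide have a nonzero constant in the ideal they generate. -/
private theorem elim_poly {A : Type*} [CommRing A] [IsDomain A] [UniqueFactorizationMonoid A]
    (f g : Polynomial A) (hf : Irreducible f) (hd : f.natDegree ≠ 0) (hg : ¬ f ∣ g) :
    ∃ (u v : Polynomial A) (c : A), c ≠ 0 ∧ u * f + v * g = Polynomial.C c := by
  classical
  have hp : f.IsPrimitive := hf.isPrimitive hd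
  set K := FractionRing A with hK
  have hinj : Function.Injective (algebraMap A K) := IsFractionRing.injective _ _
  have hfK : Irreducible (f.map (algebraMap A K)) :=
    (hp.irreducible_iff_irreducible_map_fraction_map (K := K)).1 hf
  have hgK : ¬ f.map (algebraMap A K) ∣ g.map (algebraMap A K) := fun h =>
    hg (hp.dvd_of_fraction_map_dvd_fraction_map (K := K) h)
  have hc : IsCoprime (f.map (algebraMap A K)) (g.map (algebraMap A K)) :=
    (hfK.coprime_iff_not_dvd).2 hgK
  obtain ⟨a, b, hab⟩ := hc
  obtain ⟨s, hs, has⟩ := IsLocalization.integerNormalization_spec (nonZeroDivisors A) a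
  obtain ⟨t, ht, hbt⟩ := IsLocalization.integerNormalization_spec (nonZeroDivisors A) b
  have hs0 : s ≠ 0 := nonZeroDivisors.ne_zero hs
  have ht0 : t ≠ 0 := nonZeroDivisors.ne_zero ht
  rw [Algebra.smul_def, Polynomial.algebraMap_apply] at has hbt
  refine ⟨Polynomial.C t * IsLocalization.integerNormalization (nonZeroDivisors A) a,
    Polynomial.C s * IsLocalization.integerNormalization (nonZeroDivisors A) b, s * t,
    mul_ne_zero hs0 ht0, ?_⟩
  apply Polynomial.map_injective (algebraMap A K) hinj
  rw [Polynomial.map_add, Polynomial.map_mul, Polynomial.map_mul, Polynomial.map_mul,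
    Polynomial.map_mul, has, hbt, Polynomial.map_C, Polynomial.map_C, Polynomial.map_C, map_mul,
    Polynomial.C_mul]
  linear_combination (Polynomial.C (algebraMap A K s) * Polynomial.C (algebraMap A K t)) * hab

theorem elim (F G : Pl) (hF : Irreducible F) (k : Fin 3) (hk : 0 < degreeOf k F) (hG : ¬ F ∣ G) :
    ∃ a b ρ : Pl, ρ ≠ 0 ∧ degreeOf k ρ = 0 ∧ a * F + b * G = ρ := by
  classical
  set e : Equiv.Perm (Fin 3) := Equiv.swap 0 k with he
  set Φ : Pl ≃ₐ[ℝ] Polynomial (MvPolynomial (Fin 2) ℝ) :=
    (renameEquiv ℝ e).trans (finSuccEquiv ℝ 2) with hΦ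
  have hdeg : ∀ P : Pl, (Φ P).natDegree = degreeOf k P := by
    intro P
    have h1 : Φ P = finSuccEquiv ℝ 2 (rename e P) := rfl
    rw [h1, natDegree_finSuccEquiv]
    have h2 : (0 : Fin 3) = e k := by simp [he]
    rw [h2]
    exact degreeOf_rename_of_injective e.injective k
  obtain ⟨u, v, c, hc, huv⟩ := elim_poly (Φ F) (Φ G)
    ((MulEquiv.irreducible_iff Φ.toMulEquiv).2 hF) (by rw [hdeg]; exact hk.ne')
    (fun h => hG ((map_dvd_iff Φ).1 h))
  refine ⟨Φ.symm u, Φ.symm v, Φ.symm (Polynomial.C c), ?_, ?_, ?_⟩
  · intro h
    apply hc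
    have h1 : Polynomial.C c = 0 := by
      have := congrArg Φ h
      rwa [AlgEquiv.apply_symm_apply, map_zero] at this
    exact Polynomial.C_eq_zero.1 h1
  · rw [← hdeg, AlgEquiv.apply_symm_apply, Polynomial.natDegree_C]
  · apply Φ.injective
    rw [map_add, map_mul, map_mul, AlgEquiv.apply_symm_apply, AlgEquiv.apply_symm_apply,
      AlgEquiv.apply_symm_apply, huv]

end Pool.Agent.Helper60.AS
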