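import Pool.Agent.Helper60.AS.Tan
import Pool.Agent.Helper60.AS.Elim

/-!
# AS-VAN: polynomials vanishing on an open piece of the patch are divisible by `F`

`dvd_of_vanish`: suppose not. Take `p₀ ∈ O`; by linear independence of `d1 f p₀, d2 f p₀` some minor
`d1 f p₀ i * d2 f p₀ j - d1 f p₀ j * d2 f p₀ i` is not zero, so `q ↦ (f q i, f q j)` is open near `p₀`
(inverse function theorem). Let `k` be the third index. If `degreeOf k F = 0` put `ρ = F`, otherwise
`ρ` from `elim`; in both cases `ρ ≠ 0`, `degreeOf k ρ = 0`, `ev f ρ = 0` on `O`, so `ρ`, a polynomial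
in `X i, X j`, vanishes on a nonempty open subset of the plane: `ρ = 0`, contradiction.

`exists_reg`: if `ev f (wP F) = 0` on `O` then (sum of squares) all `ev f (pderiv i F) = 0` on `O`, so
`F ∣ pderiv i F` for all `i`; choose `i` with `degreeOf i F > 0` (`F` is not constant) and compare
degrees in `X i` (`pderiv i F ≠ 0` in characteristic zero).
-/

set_option autoImplicit false

namespace Pool.Agent.Helper60.AS

open MvPolynomial

/-- Two independent vectors of three space have a nonzero minor. -/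
private lemma van_minor (u v : E3) (h : LinearIndependent ℝ ![u, v]) :
    ∃ k : Fin 3, u (k + 1) * v (k + 2) - u (k + 2) * v (k + 1) ≠ 0 := by
  by_contra hcon
  push Not at hcon
  have e0 := hcon 0
  have e1 := hcon 1
  have e2 := hcon 2
  have c1 : (1 : Fin 3) + 1 = 2 := by decide
  have c2 : (1 : Fin 3) + 2 = 0 := by decide
  have c3 : (2 : Fin 3) + 1 = 0 := by decide
  have c4 : (2 : Fin 3) + 2 = 1 := by decide
  simp only [zero_add, c1, c2, c3, c4] at e0 e1 e2
  rw [LinearIndependent.pair_iff] at h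
  have key : ∀ k : Fin 3, u k = 0 := by
    intro k
    have h1 := h (v k) (-u k) (by
      ext i
      simp only [PiLp.add_apply, PiLp.smul_apply, smul_eq_mul, PiLp.zero_apply]
      fin_cases k <;> fin_cases i <;> simp <;> linarith)
    have h2 := h1.2
    linarith
  have h3 := h 1 0 (by
    ext i
    simp [key i])
  exact one_ne_zero h3.1

private lemma van_open {U : Set (ℝ × ℝ)} {f : ℝ × ℝ → E3} {F : Pl} (h : IsPatch U f F)
    {O : Set (ℝ × ℝ)} (hO : IsOpen O) (hOU : O ⊆ U) {p : ℝ × ℝ} (hp : p ∈ O) {k : Fin 3}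
    (hk : d1 f p (k + 1) * d2 f p (k + 2) - d1 f p (k + 2) * d2 f p (k + 1) ≠ 0) :
    (fun q => (f q (k + 1), f q (k + 2))) '' O ∈ nhds (f p (k + 1), f p (k + 2)) := by
  have hc : ContDiffAt ℝ ((⊤ : ℕ∞) : WithTop ℕ∞) f p :=
    h.smooth.contDiffAt (h.isOpen.mem_nhds (hOU hp))
  have hs : HasStrictFDerivAt f (fderiv ℝ f p) p := hc.hasStrictFDerivAt (by simp)
  let Lk : Fin 3 → (E3 →L[ℝ] ℝ) := fun i => EuclideanSpace.proj i
  have h1 : HasStrictFDerivAt (fun q => (f q (k + 1), f q (k + 2)))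
      (((Lk (k + 1)).comp (fderiv ℝ f p)).prod ((Lk (k + 2)).comp (fderiv ℝ f p))) p := by
    have e1 := (Lk (k + 1)).hasStrictFDerivAt.comp p hs
    have e2 := (Lk (k + 2)).hasStrictFDerivAt.comp p hs
    exact e1.prodMk e2
  have hsurj : (((Lk (k + 1)).comp (fderiv ℝ f p)).prod
      ((Lk (k + 2)).comp (fderiv ℝ f p))).range = ⊤ := by
    rw [LinearMap.range_eq_top]
    intro y
    set a := d1 f p (k + 1) with ha
    set b := d2 f p (k + 1) with hb
    set c := d1 f p (k + 2) with hc'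
    set d := d2 f p (k + 2) with hd
    have hdet : a * d - c * b ≠ 0 := hk
    have hv : ∀ s t : ℝ, fderiv ℝ f p (s, t) = s • d1 f p + t • d2 f p := by
      intro s t
      have : ((s, t) : ℝ × ℝ) = s • ((1 : ℝ), (0 : ℝ)) + t • ((0 : ℝ), (1 : ℝ)) := by
        simp
      rw [this, map_add, map_smul, map_smul]
      rfl
    refine ⟨((d * y.1 - b * y.2) / (a * d - c * b), (a * y.2 - c * y.1) / (a * d - c * b)), ?_⟩
    refine Prod.ext ?_ ?_
    · show (fderiv ℝ f p _) (k + 1) = y.1
      rw [hv]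
      simp only [PiLp.add_apply, PiLp.smul_apply, smul_eq_mul, ← ha, ← hb]
      rw [div_mul_eq_mul_div, div_mul_eq_mul_div, ← add_div, div_eq_iff hdet]
      ring
    · show (fderiv ℝ f p _) (k + 2) = y.2
      rw [hv]
      simp only [PiLp.add_apply, PiLp.smul_apply, smul_eq_mul, ← hc', ← hd]
      rw [div_mul_eq_mul_div, div_mul_eq_mul_div, ← add_div, div_eq_iff hdet]
      ring
  have h2 := h1.map_nhds_eq_of_surj hsurj
  rw [← h2]
  exact Filter.image_mem_map (hO.mem_nhds hp)

private lemma van_zero {k : Fin 3} {ρ : Pl} (hρ : degreeOf k ρ = 0) {x y : ℝ} {W : Set (ℝ × ℝ)}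
    (hW : W ∈ nhds (x, y))
    (h : ∀ w ∈ W, ∃ v : Fin 3 → ℝ, v (k + 1) = w.1 ∧ v (k + 2) = w.2 ∧ eval v ρ = 0) : ρ = 0 := by
  obtain ⟨A, hA, B, hB, hAB⟩ := mem_nhds_prod_iff.1 hW
  have hkk : k + 1 ≠ k ∧ k + 2 ≠ k ∧ k + 1 ≠ k + 2 := by
    fin_cases k <;> decide
  have hall : ∀ i : Fin 3, i = k ∨ i = k + 1 ∨ i = k + 2 := by
    intro i
    fin_cases k <;> fin_cases i <;> decide
  let s : Fin 3 → Set ℝ := fun i => if i = k + 1 then A else if i = k + 2 then B else Set.univ
  refine funext_set (q := 0) s ?_ ?_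
  · intro i
    simp only [s]
    split_ifs
    · exact infinite_of_mem_nhds x hA
    · exact infinite_of_mem_nhds y hB
    · exact Set.infinite_univ
  · intro v hv
    rw [map_zero]
    have h1 : v (k + 1) ∈ A := by
      have := hv (k + 1) (Set.mem_univ _)
      simpa [s] using this
    have h2 : v (k + 2) ∈ B := by
      have := hv (k + 2) (Set.mem_univ _)
      simpa [s, hkk.2.2.symm] using this
    obtain ⟨u, hu1, hu2, hu3⟩ := h (v (k + 1), v (k + 2)) (hAB ⟨h1, h2⟩)
    rw [← hu3]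
    refine hom_congr_vars ?_ ?_ rfl
    · ext r
      simp
    · intro i hi _
      rw [eval_X, eval_X]
      rcases hall i with rfl | rfl | rfl
      · exact absurd hρ (mem_vars_iff_degreeOf_ne_zero.1 hi)
      · exact hu1.symm
      · exact hu2.symm

theorem dvd_of_vanish {U : Set (ℝ × ℝ)} {f : ℝ × ℝ → E3} {F : Pl} (h : IsPatch U f F)
    (hF : Irreducible F) {O : Set (ℝ × ℝ)} (hO : IsOpen O) (hne : O.Nonempty) (hOU : O ⊆ U) {G : Pl}
    (hG : ∀ p ∈ O, ev f G p = 0) : F ∣ G := by
  by_contra hnd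
  obtain ⟨p, hp⟩ := hne
  obtain ⟨k, hk⟩ := van_minor _ _ (h.immersion p (hOU hp))
  obtain ⟨ρ, hρ0, hρk, hρ⟩ : ∃ ρ : Pl, ρ ≠ 0 ∧ degreeOf k ρ = 0 ∧ ∀ q ∈ O, ev f ρ q = 0 := by
    rcases Nat.eq_zero_or_pos (degreeOf k F) with h0 | h0
    · exact ⟨F, hF.ne_zero, h0, fun q hq => h.zero q (hOU hq)⟩
    · obtain ⟨a, b, ρ, h1, h2, h3⟩ := elim F G hF k h0 hnd
      refine ⟨ρ, h1, h2, fun q hq => ?_⟩
      have e1 := h.zero q (hOU hq)
      have e2 := hG q hq
      unfold ev at e1 e2 ⊢
      rw [← h3, map_add, map_mul, map_mul, e1, e2]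
      simp
  refine hρ0 (van_zero hρk (van_open h hO hOU hp hk) ?_)
  rintro w ⟨q, hq, rfl⟩
  exact ⟨fun i => f q i, rfl, rfl, hρ q hq⟩

private lemma van_pderiv {F : Pl} {i : Fin 3} (hi : 0 < degreeOf i F) :
    pderiv i F ≠ 0 ∧ degreeOf i (pderiv i F) < degreeOf i F := by
  classical
  constructor
  · obtain ⟨m, hm, hmi⟩ : ∃ m ∈ F.support, degreeOf i F = m i := by
      have hne : F.support.Nonempty := by
        rw [Finset.nonempty_iff_ne_empty]
        intro h0
        rw [degreeOf_eq_sup, h0] at hi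
        simp at hi
      obtain ⟨m, hm, h⟩ := Finset.exists_mem_eq_sup F.support hne (fun m => m i)
      exact ⟨m, hm, by rw [degreeOf_eq_sup]; exact h⟩
    intro h0
    have h1 : coeff (m - Finsupp.single i 1) (pderiv i F) = 0 := by rw [h0, coeff_zero]
    rw [coeff_pderiv] at h1
    have h2 : m - Finsupp.single i 1 + Finsupp.single i 1 = m := by
      ext j
      rw [Finsupp.add_apply, Finsupp.tsub_apply]
      by_cases hj : j = i
      · subst hj
        rw [Finsupp.single_eq_same]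
        omega
      · rw [Finsupp.single_eq_of_ne hj]
        simp
    rw [h2] at h1
    have h3 : coeff m F ≠ 0 := mem_support_iff.1 hm
    rcases mul_eq_zero.1 h1 with h4 | h4
    · exact h3 h4
    · have h5 : (0 : ℝ) ≤ (((m - Finsupp.single i 1 : Fin 3 →₀ ℕ) i : ℕ) : ℝ) := Nat.cast_nonneg _
      linarith
  · rw [degreeOf_lt_iff hi]
    intro m hm
    have h1 := mem_support_iff.1 hm
    rw [coeff_pderiv] at h1
    have h2 : m + Finsupp.single i 1 ∈ F.support := mem_support_iff.2 (left_ne_zero_of_mul h1)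
    have h3 := monomial_le_degreeOf i h2
    rw [Finsupp.add_apply, Finsupp.single_eq_same] at h3
    omega

theorem exists_reg {U : Set (ℝ × ℝ)} {f : ℝ × ℝ → E3} {F : Pl} (h : IsPatch U f F)
    (hF : Irreducible F) {O : Set (ℝ × ℝ)} (hO : IsOpen O) (hne : O.Nonempty) (hOU : O ⊆ U) :
    ∃ p ∈ O, ev f (wP F) p ≠ 0 := by
  by_contra hcon
  push Not at hcon
  have hall : ∀ i : Fin 3, F ∣ pderiv i F := by
    intro i
    refine dvd_of_vanish h hF hO hne hOU fun p hp => ?_
    have h1 := hcon p hp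
    unfold ev wP at h1
    unfold ev
    simp only [map_sum, map_pow] at h1
    have h2 := (Finset.sum_eq_zero_iff_of_nonneg (fun j _ => sq_nonneg _)).1 h1 i
      (Finset.mem_univ i)
    exact pow_eq_zero_iff (two_ne_zero) |>.1 h2
  obtain ⟨i, hi⟩ : ∃ i, 0 < degreeOf i F := by
    by_contra hno
    push Not at hno
    have hC : F = C (coeff 0 F) := by
      ext m
      rw [coeff_C]
      split_ifs with hm
      · rw [hm]
      · by_contra hm0
        have hms : m ∈ F.support := mem_support_iff.2 hm0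
        apply hm
        ext j
        have h1 := monomial_le_degreeOf j hms
        have h2 := hno j
        simp only [Finsupp.coe_zero, Pi.zero_apply]
        omega
    have h0 : coeff 0 F ≠ 0 := by
      intro h0
      rw [h0, C_0] at hC
      exact hF.ne_zero hC
    apply hF.not_isUnit
    rw [hC]
    exact (isUnit_iff_ne_zero.2 h0).map C
  obtain ⟨h1, h2⟩ := van_pderiv hi
  obtain ⟨Q, hQ⟩ := hall i
  have hQ0 : Q ≠ 0 := by
    rintro rfl
    rw [mul_zero] at hQ
    exact h1 hQ
  rw [hQ, degreeOf_mul_eq hF.ne_zero hQ0] at h2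
  omega

end Pool.Agent.Helper60.AS
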