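import Pool.Agent.Helper60.AS.Iter
import Pool.Agent.Helper60.AS.Van

/-!
# AS-B: a transversal isotropic point excludes finite type (case B)

`aeval_Gs`: write `N_i, w_i` for the values at `z` of `pderiv i F`, `pderiv i (wP F)`; `w(z) = 0`. Then
`∑ N_i² = 0`, `N · ∇w = 2 h`, `∑ k, (T_k w)² = |N × ∇w|² = |N|² |∇w|² - (N · ∇w)² = -4 h²`,
`∑ k, T_k w * T_k (X a) = (N × ∇w) · (N × e_a) = |N|² w_a - (N · ∇w) N_a = -2 h N_a`. Hence
`Gs 0 (z) = (1/2) (-2 h N_a) = -h N_a` and
`Lw G m (z) = (m (m + 1) + m / 2) G(z) (-4 h²)`, i.e. `Gs (j+1) (z) = 4 m (m + 3/2) h² Gs j (z)`, `m = 3 j + 2`.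
By induction `Gs j (z) = c_j h^(2j+1) N_a(z)` with `c_j ≠ 0`.

`no_finite_type`: `N(z) ≠ 0` because `h(z) ≠ 0`; take `a` with `N_a(z) ≠ 0` and the spectral
decomposition of `x_a`. With `P(T) = ∏ l ∈ S, (T - l) = T^k + ...`, `k = |S| ≥ 1`:
`∑ j ≤ k, P_j ∑ l ∈ S, l^j e l = 0` on `U`. Multiply by `w^(3 k - 1)`: the polynomial
`Q = P_0 X_a w^(3k-1) + ∑_{1 ≤ j ≤ k} P_j Gs (j-1) w^(3 (k - j))` vanishes on `{p ∈ U | w ≠ 0}`, which is
open and nonempty (`exists_reg`), so `F ∣ Q` (`dvd_of_vanish`) and `Q(z) = 0`; but `Q(z) = Gs (k-1) (z) ≠ 0`.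
-/

set_option autoImplicit false

namespace Pool.Agent.Helper60.AS

open MvPolynomial

private lemma aeval_T (F G : Pl) (z : Fin 3 → ℂ) (k : Fin 3) :
    aeval z (T F k G) = aeval z (pderiv (k + 1) F) * aeval z (pderiv (k + 2) G) -
      aeval z (pderiv (k + 2) F) * aeval z (pderiv (k + 1) G) := by
  simp [T]

private lemma aeval_wP (F : Pl) (z : Fin 3 → ℂ) :
    aeval z (wP F) = aeval z (pderiv 0 F) ^ 2 + aeval z (pderiv 1 F) ^ 2 +
      aeval z (pderiv 2 F) ^ 2 := by
  simp [wP, Fin.sum_univ_three]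

private lemma pderiv_wP (F : Pl) : ∑ i, pderiv i F * pderiv i (wP F) = 2 * hP F := by
  unfold wP hP
  rw [Finset.mul_sum]
  refine Finset.sum_congr rfl fun i _ => ?_
  rw [map_sum, Finset.mul_sum, Finset.mul_sum]
  refine Finset.sum_congr rfl fun j _ => ?_
  rw [Derivation.leibniz_pow]
  simp only [smul_eq_mul, nsmul_eq_mul]
  push_cast
  ring

private lemma aeval_NW (F : Pl) (z : Fin 3 → ℂ) :
    aeval z (pderiv 0 F) * aeval z (pderiv 0 (wP F)) +
      aeval z (pderiv 1 F) * aeval z (pderiv 1 (wP F)) +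
      aeval z (pderiv 2 F) * aeval z (pderiv 2 (wP F)) = 2 * aeval z (hP F) := by
  have h := congrArg (aeval z) (pderiv_wP F)
  rw [Fin.sum_univ_three] at h
  simpa using h

private lemma gs_zero (F : Pl) (z : Fin 3 → ℂ) (hw : aeval z (wP F) = 0) (a : Fin 3) :
    aeval z (Gs F a 0) = (1 / 2) * ∑ k, aeval z (T F k (wP F)) * aeval z (T F k (X a)) := by
  unfold Gs
  rw [map_neg, map_sum, Finset.mul_sum, ← Finset.sum_neg_distrib]
  refine Finset.sum_congr rfl fun k _ => ?_
  simp only [map_sub, map_mul, hw, zero_mul, zero_sub, neg_neg, aeval_C]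
  have : (algebraMap ℝ ℂ) (1 / 2 : ℝ) = (1 / 2 : ℂ) := by
    simp
  rw [this]
  ring

private lemma gs_succ (F : Pl) (z : Fin 3 → ℂ) (hw : aeval z (wP F) = 0) (G : Pl) (m : ℕ) :
    aeval z (Lw F G m) = ((m : ℂ) * (m + 1) + m / 2) * aeval z G * ∑ k, aeval z (T F k (wP F)) ^ 2 := by
  unfold Lw
  rw [map_sum, Finset.mul_sum]
  refine Finset.sum_congr rfl fun k _ => ?_
  simp only [map_sub, map_add, map_mul, map_pow, hw, zero_mul, aeval_C]
  have h1 : (algebraMap ℝ ℂ) (1 / 2 : ℝ) = (1 / 2 : ℂ) := by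
    simp
  have h2 : (algebraMap ℝ ℂ) (m : ℝ) = (m : ℂ) := by
    simp
  simp only [h1, h2, map_one]
  ring

theorem aeval_Gs {F : Pl} {z : Fin 3 → ℂ} (hw : aeval z (wP F) = 0) (a : Fin 3) (j : ℕ) :
    ∃ c : ℂ, c ≠ 0 ∧
      aeval z (Gs F a j) = c * aeval z (hP F) ^ (2 * j + 1) * aeval z (pderiv a F) := by
  have hw' := hw
  rw [aeval_wP] at hw'
  have hNW := aeval_NW F z
  induction j with
  | zero =>
    refine ⟨-1, by norm_num, ?_⟩
    rw [gs_zero F z hw a, Fin.sum_univ_three]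
    simp only [aeval_T]
    have e1 : (0 : Fin 3) + 1 = 1 := rfl
    have e2 : (0 : Fin 3) + 2 = 2 := rfl
    have e3 : (1 : Fin 3) + 1 = 2 := rfl
    have e4 : (1 : Fin 3) + 2 = 0 := rfl
    have e5 : (2 : Fin 3) + 1 = 0 := rfl
    have e6 : (2 : Fin 3) + 2 = 1 := rfl
    rw [e1, e2, e3, e4, e5, e6]
    fin_cases a
    · simp [pderiv_X]
      linear_combination (1 / 2) * aeval z (pderiv 0 (wP F)) * hw' - (1 / 2) * aeval z (pderiv 0 F) * hNW
    · simp [pderiv_X]
      linear_combination (1 / 2) * aeval z (pderiv 1 (wP F)) * hw' - (1 / 2) * aeval z (pderiv 1 F) * hNW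
    · simp [pderiv_X]
      linear_combination (1 / 2) * aeval z (pderiv 2 (wP F)) * hw' - (1 / 2) * aeval z (pderiv 2 F) * hNW
  | succ j ih =>
    obtain ⟨c, hc, ih⟩ := ih
    refine ⟨4 * (3 * j + 2) * ((3 * j + 2) + 3 / 2) * c, ?_, ?_⟩
    · have h1 : (3 * (j : ℂ) + 2) ≠ 0 := by
        have : ((3 * j + 2 : ℕ) : ℂ) ≠ 0 := Nat.cast_ne_zero.mpr (by omega)
        push_cast at this
        exact this
      have h2 : (3 * (j : ℂ) + 2) + 3 / 2 ≠ 0 := by
        have : ((6 * j + 7 : ℕ) : ℂ) ≠ 0 := Nat.cast_ne_zero.mpr (by omega)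
        push_cast at this
        intro h
        apply this
        linear_combination 2 * h
      exact mul_ne_zero (mul_ne_zero (mul_ne_zero (by norm_num) h1) h2) hc
    · have e1 : (0 : Fin 3) + 1 = 1 := rfl
      have e2 : (0 : Fin 3) + 2 = 2 := rfl
      have e3 : (1 : Fin 3) + 1 = 2 := rfl
      have e4 : (1 : Fin 3) + 2 = 0 := rfl
      have e5 : (2 : Fin 3) + 1 = 0 := rfl
      have e6 : (2 : Fin 3) + 2 = 1 := rfl
      have hS : ∑ k, aeval z (T F k (wP F)) ^ 2 = -4 * aeval z (hP F) ^ 2 := by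
        rw [Fin.sum_univ_three]
        simp only [aeval_T]
        rw [e1, e2, e3, e4, e5, e6]
        linear_combination (aeval z (pderiv 0 (wP F)) ^ 2 + aeval z (pderiv 1 (wP F)) ^ 2 +
          aeval z (pderiv 2 (wP F)) ^ 2) * hw' - (aeval z (pderiv 0 F) * aeval z (pderiv 0 (wP F)) +
      aeval z (pderiv 1 F) * aeval z (pderiv 1 (wP F)) +
      aeval z (pderiv 2 F) * aeval z (pderiv 2 (wP F)) + 2 * aeval z (hP F)) * hNW
      have : Gs F a (j + 1) = -Lw F (Gs F a j) (3 * j + 2) := rfl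
      rw [this, map_neg, gs_succ F z hw, ih, hS]
      push_cast
      ring

theorem no_finite_type {U : Set (ℝ × ℝ)} {f : ℝ × ℝ → E3} {F : Pl} (h : IsPatch U f F)
    (hF : Irreducible F) (hne : U.Nonempty) (hft : FiniteType f U) {z : Fin 3 → ℂ}
    (h0 : aeval z F = 0) (h1 : aeval z (wP F) = 0) (h2 : aeval z (hP F) ≠ 0) : False := by
  classical
  -- some component of the normal does not vanish
  obtain ⟨a, ha⟩ : ∃ a : Fin 3, aeval z (pderiv a F) ≠ 0 := by
    by_contra hcon
    push Not at hcon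
    apply h2
    unfold hP
    rw [map_sum]
    refine Finset.sum_eq_zero fun i _ => ?_
    rw [map_sum]
    refine Finset.sum_eq_zero fun j _ => ?_
    rw [map_mul, hcon j, mul_zero]
  obtain ⟨S, e, hS, -⟩ := exists_spec h hft a
  -- the annihilating polynomial
  set P : Polynomial ℝ := ∏ l ∈ S, (Polynomial.X - Polynomial.C l) with hP'
  have hmonic : P.Monic := Polynomial.monic_prod_of_monic _ _ fun l _ => Polynomial.monic_X_sub_C l
  have hdeg : P.natDegree = S.card := by
    rw [hP', Polynomial.natDegree_prod_of_monic _ _ fun l _ => Polynomial.monic_X_sub_C l]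
    simp
  obtain ⟨k, hk⟩ : ∃ k, S.card = k + 1 := ⟨S.card - 1, by
    have := hS.nonempty.card_pos
    omega⟩
  have hroot : ∀ l ∈ S, P.eval l = 0 := by
    intro l hl
    rw [hP', Polynomial.eval_prod]
    exact Finset.prod_eq_zero hl (by simp)
  -- the polynomial Q
  set Q : Pl := C (P.coeff 0) * X a * wP F ^ (3 * k + 2) +
    ∑ j ∈ Finset.range (k + 1), C (P.coeff (j + 1)) * Gs F a j * wP F ^ (3 * (k - j)) with hQ
  have hQv : ∀ p ∈ U, ev f (wP F) p ≠ 0 → ev f Q p = 0 := by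
    intro p hp hwp
    have hsum : ∑ l ∈ S, P.eval l * e l p = 0 :=
      Finset.sum_eq_zero fun l hl => by rw [hroot l hl, zero_mul]
    have hexp : ∑ l ∈ S, P.eval l * e l p =
        P.coeff 0 * f p a + ∑ j ∈ Finset.range (k + 1), P.coeff (j + 1) *
          (ev f (Gs F a j) p / ev f (wP F) p ^ (3 * j + 2)) := by
      have h1 : ∀ l ∈ S, P.eval l * e l p =
          P.coeff 0 * e l p + ∑ j ∈ Finset.range (k + 1), P.coeff (j + 1) * (l ^ (j + 1) * e l p) := by
        intro l _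
        rw [Polynomial.eval_eq_sum_range, hdeg, hk, Finset.sum_range_succ', add_mul, Finset.sum_mul,
          add_comm]
        congr 1
        · simp
        · exact Finset.sum_congr rfl fun j _ => by ring
      rw [Finset.sum_congr rfl h1, Finset.sum_add_distrib, ← Finset.mul_sum, ← hS.sum p hp,
        Finset.sum_comm]
      congr 1
      refine Finset.sum_congr rfl fun j _ => ?_
      rw [← Finset.mul_sum, iter_rep h a hS j hp hwp]
    have hev : ev f Q p = (P.coeff 0 * f p a + ∑ j ∈ Finset.range (k + 1), P.coeff (j + 1) *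
          (ev f (Gs F a j) p / ev f (wP F) p ^ (3 * j + 2))) * ev f (wP F) p ^ (3 * k + 2) := by
      rw [hQ]
      have : ∀ G : Pl, ev f G p = MvPolynomial.eval (fun i => f p i) G := fun _ => rfl
      simp only [this] at hwp ⊢
      rw [map_add, map_sum, add_mul, Finset.sum_mul]
      congr 1
      · simp
      · refine Finset.sum_congr rfl fun j hj => ?_
        have hj' : j ≤ k := by
          have := Finset.mem_range.mp hj
          omega
        simp only [map_mul, map_pow, eval_C]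
        have hpow : (MvPolynomial.eval (fun i => f p i) (wP F)) ^ (3 * k + 2) =
            (MvPolynomial.eval (fun i => f p i) (wP F)) ^ (3 * j + 2) *
            (MvPolynomial.eval (fun i => f p i) (wP F)) ^ (3 * (k - j)) := by
          rw [← pow_add]
          congr 1
          omega
        rw [hpow]
        field_simp
    rw [hev, ← hexp, hsum, zero_mul]
  -- the regular set
  set O : Set (ℝ × ℝ) := U ∩ {p | ev f (wP F) p ≠ 0} with hO
  have hOo : IsOpen O :=
    (smooth_ev h.smooth (wP F)).continuousOn.isOpen_inter_preimage h.isOpen isOpen_ne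
  obtain ⟨p, hp, hpw⟩ := exists_reg h hF h.isOpen hne (subset_refl U)
  have hdvd : F ∣ Q := dvd_of_vanish h hF hOo ⟨p, hp, hpw⟩ Set.inter_subset_left
    fun q hq => hQv q hq.1 hq.2
  obtain ⟨R, hR⟩ := hdvd
  have hz : aeval z Q = 0 := by rw [hR, map_mul, h0, zero_mul]
  obtain ⟨c, hc, hGs⟩ := aeval_Gs h1 a k
  have hlead : P.coeff (k + 1) = 1 := by
    have := hmonic.coeff_natDegree
    rwa [hdeg, hk] at this
  have : aeval z Q = aeval z (Gs F a k) := by
    rw [hQ, map_add, map_sum, Finset.sum_range_succ]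
    rw [Finset.sum_eq_zero]
    · simp [hlead, h1]
    · intro j hj
      have hj' : j < k := Finset.mem_range.mp hj
      rw [map_mul, map_pow, h1, zero_pow (by omega), mul_zero]
  rw [this, hGs] at hz
  exact mul_ne_zero (mul_ne_zero hc (pow_ne_zero _ h2)) ha hz

end Pool.Agent.Helper60.AS
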