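import Pool.Agent.Helper60.AS.Defs

/-!
# AS-COMP: the scalar Laplacian: components, smoothness, linearity, locality

Proof. On `U` the vectors `d1 f p, d2 f p` are linearly independent, so `cE * cG - cF ^ 2 > 0`
(Gram determinant; Cauchy-Schwarz strict) and `area f` is smooth and positive on `U`; all partial
derivatives of smooth functions are smooth on the open set `U`. `fderiv` commutes with the
continuous linear coordinate maps at points of differentiability.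
-/

set_option autoImplicit false

namespace Pool.Agent.Helper60.AS

open MvPolynomial

private lemma comp67_gram {a b : E3} (h : LinearIndependent ℝ ![a, b]) :
    0 < (inner ℝ a a : ℝ) * (inner ℝ b b : ℝ) - (inner ℝ a b : ℝ) ^ 2 := by
  rw [LinearIndependent.pair_iff] at h
  have ha : a ≠ 0 := by
    intro h0
    have := (h 1 0 (by rw [h0]; simp)).1
    exact one_ne_zero this
  have haa : (0 : ℝ) < inner ℝ a a := real_inner_self_pos.2 ha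
  have hv : (inner ℝ a a : ℝ) • b - (inner ℝ a b : ℝ) • a ≠ 0 := by
    intro h0
    have := (h (-(inner ℝ a b : ℝ)) (inner ℝ a a : ℝ) (by rw [← h0, neg_smul]; abel)).2
    exact haa.ne' this
  have hpos : (0 : ℝ) < inner ℝ ((inner ℝ a a : ℝ) • b - (inner ℝ a b : ℝ) • a)
      ((inner ℝ a a : ℝ) • b - (inner ℝ a b : ℝ) • a) := real_inner_self_pos.2 hv
  have heq : (inner ℝ ((inner ℝ a a : ℝ) • b - (inner ℝ a b : ℝ) • a)
      ((inner ℝ a a : ℝ) • b - (inner ℝ a b : ℝ) • a) : ℝ) =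
      (inner ℝ a a : ℝ) * ((inner ℝ a a : ℝ) * (inner ℝ b b : ℝ) - (inner ℝ a b : ℝ) ^ 2) := by
    rw [inner_sub_left, inner_sub_right, inner_sub_right]
    simp only [inner_smul_left, inner_smul_right, RCLike.conj_to_real]
    rw [real_inner_comm a b]
    ring
  rw [heq] at hpos
  exact (mul_pos_iff_of_pos_left haa).1 hpos

private lemma comp67_diff {E : Type*} [NormedAddCommGroup E] [NormedSpace ℝ E] {U : Set (ℝ × ℝ)}
    (hU : IsOpen U) {φ : ℝ × ℝ → E} (hφ : ContDiffOn ℝ ((⊤ : ℕ∞) : WithTop ℕ∞) φ U) {p : ℝ × ℝ}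
    (hp : p ∈ U) : DifferentiableAt ℝ φ p :=
  (hφ.contDiffAt (hU.mem_nhds hp)).differentiableAt (by simp)

private lemma comp67_fderiv {E : Type*} [NormedAddCommGroup E] [NormedSpace ℝ E] {U : Set (ℝ × ℝ)}
    (hU : IsOpen U) {φ : ℝ × ℝ → E} (hφ : ContDiffOn ℝ ((⊤ : ℕ∞) : WithTop ℕ∞) φ U) (v : ℝ × ℝ) :
    ContDiffOn ℝ ((⊤ : ℕ∞) : WithTop ℕ∞) (fun q => fderiv ℝ φ q v) U :=
  (hφ.fderiv_of_isOpen hU (m := ((⊤ : ℕ∞) : WithTop ℕ∞)) (by simp)).clm_apply contDiffOn_const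

private lemma comp67_fderiv_apply {U : Set (ℝ × ℝ)} (hU : IsOpen U) {φ : ℝ × ℝ → E3}
    (hφ : ContDiffOn ℝ ((⊤ : ℕ∞) : WithTop ℕ∞) φ U) {p : ℝ × ℝ} (hp : p ∈ U) (a : Fin 3)
    (v : ℝ × ℝ) : (fderiv ℝ φ p v) a = fderiv ℝ (fun q => φ q a) p v := by
  have h1 := (EuclideanSpace.proj a : E3 →L[ℝ] ℝ).hasFDerivAt.comp p
    (comp67_diff hU hφ hp).hasFDerivAt
  have h2 : HasFDerivAt (fun q => φ q a)
    ((EuclideanSpace.proj a : E3 →L[ℝ] ℝ).comp (fderiv ℝ φ p)) p := h1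
  rw [h2.fderiv]
  rfl

private lemma comp67_fderiv_congr {O : Set (ℝ × ℝ)} (hO : IsOpen O) {ψ χ : ℝ × ℝ → ℝ}
    (h : ∀ q ∈ O, ψ q = χ q) {p : ℝ × ℝ} (hp : p ∈ O) : fderiv ℝ ψ p = fderiv ℝ χ p := by
  apply Filter.EventuallyEq.fderiv_eq
  filter_upwards [hO.mem_nhds hp] with q hq
  exact h q hq

private lemma comp67_fderiv_sum {U : Set (ℝ × ℝ)} (hU : IsOpen U) {ι : Type} (S : Finset ι)
    (c : ι → ℝ) (χ : ι → ℝ × ℝ → ℝ)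
    (hχ : ∀ i ∈ S, ContDiffOn ℝ ((⊤ : ℕ∞) : WithTop ℕ∞) (χ i) U) {p : ℝ × ℝ} (hp : p ∈ U)
    (v : ℝ × ℝ) :
    fderiv ℝ (fun q => ∑ i ∈ S, c i * χ i q) p v = ∑ i ∈ S, c i * fderiv ℝ (χ i) p v := by
  have h1 : HasFDerivAt (fun q => ∑ i ∈ S, c i * χ i q) (∑ i ∈ S, c i • fderiv ℝ (χ i) p) p :=
    HasFDerivAt.fun_sum fun i hi => (comp67_diff hU (hχ i hi) hp).hasFDerivAt.const_mul (c i)
  rw [h1.fderiv]
  simp

theorem area_pos {U : Set (ℝ × ℝ)} {f : ℝ × ℝ → E3}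
    (himm : ∀ p ∈ U, LinearIndependent ℝ ![d1 f p, d2 f p]) {p : ℝ × ℝ} (hp : p ∈ U) :
    0 < area f p := by
  exact Real.sqrt_pos.2 (comp67_gram (himm p hp))

theorem area_sq {U : Set (ℝ × ℝ)} {f : ℝ × ℝ → E3}
    (himm : ∀ p ∈ U, LinearIndependent ℝ ![d1 f p, d2 f p]) {p : ℝ × ℝ} (hp : p ∈ U) :
    area f p ^ 2 = cE f p * cG f p - cF f p ^ 2 := by
  exact Real.sq_sqrt (comp67_gram (himm p hp)).le

theorem smooth_D1 {U : Set (ℝ × ℝ)} (hU : IsOpen U) {ψ : ℝ × ℝ → ℝ}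
    (hψ : ContDiffOn ℝ ((⊤ : ℕ∞) : WithTop ℕ∞) ψ U) :
    ContDiffOn ℝ ((⊤ : ℕ∞) : WithTop ℕ∞) (D1 ψ) U := by
  exact comp67_fderiv hU hψ _

theorem smooth_D2 {U : Set (ℝ × ℝ)} (hU : IsOpen U) {ψ : ℝ × ℝ → ℝ}
    (hψ : ContDiffOn ℝ ((⊤ : ℕ∞) : WithTop ℕ∞) ψ U) :
    ContDiffOn ℝ ((⊤ : ℕ∞) : WithTop ℕ∞) (D2 ψ) U := by
  exact comp67_fderiv hU hψ _

theorem smooth_coord {U : Set (ℝ × ℝ)} {φ : ℝ × ℝ → E3}
    (hφ : ContDiffOn ℝ ((⊤ : ℕ∞) : WithTop ℕ∞) φ U) (a : Fin 3) :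
    ContDiffOn ℝ ((⊤ : ℕ∞) : WithTop ℕ∞) (fun q => φ q a) U := by
  exact contDiffOn_euclidean.1 hφ a

theorem d1_apply {U : Set (ℝ × ℝ)} (hU : IsOpen U) {φ : ℝ × ℝ → E3}
    (hφ : ContDiffOn ℝ ((⊤ : ℕ∞) : WithTop ℕ∞) φ U) {p : ℝ × ℝ} (hp : p ∈ U) (a : Fin 3) :
    d1 φ p a = D1 (fun q => φ q a) p := by
  exact comp67_fderiv_apply hU hφ hp a _

theorem d2_apply {U : Set (ℝ × ℝ)} (hU : IsOpen U) {φ : ℝ × ℝ → E3}
    (hφ : ContDiffOn ℝ ((⊤ : ℕ∞) : WithTop ℕ∞) φ U) {p : ℝ × ℝ} (hp : p ∈ U) (a : Fin 3) :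
    d2 φ p a = D2 (fun q => φ q a) p := by
  exact comp67_fderiv_apply hU hφ hp a _

/-- The coefficients of the metric and the area density are smooth. -/
theorem smooth_coeff {U : Set (ℝ × ℝ)} (hU : IsOpen U) {f : ℝ × ℝ → E3}
    (hf : ContDiffOn ℝ ((⊤ : ℕ∞) : WithTop ℕ∞) f U)
    (himm : ∀ p ∈ U, LinearIndependent ℝ ![d1 f p, d2 f p]) :
    ContDiffOn ℝ ((⊤ : ℕ∞) : WithTop ℕ∞) (cE f) U ∧
    ContDiffOn ℝ ((⊤ : ℕ∞) : WithTop ℕ∞) (cF f) U ∧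
    ContDiffOn ℝ ((⊤ : ℕ∞) : WithTop ℕ∞) (cG f) U ∧
    ContDiffOn ℝ ((⊤ : ℕ∞) : WithTop ℕ∞) (area f) U ∧
    ContDiffOn ℝ ((⊤ : ℕ∞) : WithTop ℕ∞) (fun q => (area f q)⁻¹) U := by
  have h1 : ContDiffOn ℝ ((⊤ : ℕ∞) : WithTop ℕ∞) (d1 f) U := comp67_fderiv hU hf _
  have h2 : ContDiffOn ℝ ((⊤ : ℕ∞) : WithTop ℕ∞) (d2 f) U := comp67_fderiv hU hf _
  have hE : ContDiffOn ℝ ((⊤ : ℕ∞) : WithTop ℕ∞) (cE f) U := h1.inner ℝ h1
  have hF : ContDiffOn ℝ ((⊤ : ℕ∞) : WithTop ℕ∞) (cF f) U := h1.inner ℝ h2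
  have hG : ContDiffOn ℝ ((⊤ : ℕ∞) : WithTop ℕ∞) (cG f) U := h2.inner ℝ h2
  have hA : ContDiffOn ℝ ((⊤ : ℕ∞) : WithTop ℕ∞) (area f) U :=
    ((hE.mul hG).sub (hF.pow 2)).sqrt fun p hp => (comp67_gram (himm p hp)).ne'
  exact ⟨hE, hF, hG, hA, hA.inv fun p hp => (Real.sqrt_pos.2 (comp67_gram (himm p hp))).ne'⟩

theorem lap_apply {U : Set (ℝ × ℝ)} (hU : IsOpen U) {f : ℝ × ℝ → E3}
    (hf : ContDiffOn ℝ ((⊤ : ℕ∞) : WithTop ℕ∞) f U)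
    (himm : ∀ p ∈ U, LinearIndependent ℝ ![d1 f p, d2 f p]) {φ : ℝ × ℝ → E3}
    (hφ : ContDiffOn ℝ ((⊤ : ℕ∞) : WithTop ℕ∞) φ U) {p : ℝ × ℝ} (hp : p ∈ U) (a : Fin 3) :
    lap f φ p a = lapS f (fun q => φ q a) p := by
  obtain ⟨hE, hF, hG, hA, hAi⟩ := smooth_coeff hU hf himm
  have h1 : ContDiffOn ℝ ((⊤ : ℕ∞) : WithTop ℕ∞) (d1 φ) U := comp67_fderiv hU hφ _
  have h2 : ContDiffOn ℝ ((⊤ : ℕ∞) : WithTop ℕ∞) (d2 φ) U := comp67_fderiv hU hφ _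
  have hV : ContDiffOn ℝ ((⊤ : ℕ∞) : WithTop ℕ∞)
      (fun q => (area f q)⁻¹ • (cG f q • d1 φ q - cF f q • d2 φ q)) U :=
    hAi.smul ((hG.smul h1).sub (hF.smul h2))
  have hW : ContDiffOn ℝ ((⊤ : ℕ∞) : WithTop ℕ∞)
      (fun q => (area f q)⁻¹ • (cE f q • d2 φ q - cF f q • d1 φ q)) U :=
    hAi.smul ((hE.smul h2).sub (hF.smul h1))
  have e1 : d1 (fun q => (area f q)⁻¹ • (cG f q • d1 φ q - cF f q • d2 φ q)) p a =
      D1 (fun q => (area f q)⁻¹ * (cG f q * D1 (fun q => φ q a) q - cF f q * D2 (fun q => φ q a) q)) p := by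
    rw [d1_apply hU hV hp a]
    unfold D1
    rw [comp67_fderiv_congr hU (fun q hq => ?_) hp]
    have a1 := d1_apply hU hφ hq a
    have a2 := d2_apply hU hφ hq a
    unfold D1 at a1
    rw [← a1, ← a2]
    simp [PiLp.smul_apply, PiLp.sub_apply]
  have e2 : d2 (fun q => (area f q)⁻¹ • (cE f q • d2 φ q - cF f q • d1 φ q)) p a =
      D2 (fun q => (area f q)⁻¹ * (cE f q * D2 (fun q => φ q a) q - cF f q * D1 (fun q => φ q a) q)) p := by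
    rw [d2_apply hU hW hp a]
    unfold D2
    rw [comp67_fderiv_congr hU (fun q hq => ?_) hp]
    have a1 := d1_apply hU hφ hq a
    have a2 := d2_apply hU hφ hq a
    unfold D2 at a2
    rw [← a1, ← a2]
    simp [PiLp.smul_apply, PiLp.sub_apply]
  unfold lap lapS
  rw [PiLp.smul_apply, PiLp.add_apply, e1, e2, smul_eq_mul]

theorem lapS_smooth {U : Set (ℝ × ℝ)} (hU : IsOpen U) {f : ℝ × ℝ → E3}
    (hf : ContDiffOn ℝ ((⊤ : ℕ∞) : WithTop ℕ∞) f U)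
    (himm : ∀ p ∈ U, LinearIndependent ℝ ![d1 f p, d2 f p]) {ψ : ℝ × ℝ → ℝ}
    (hψ : ContDiffOn ℝ ((⊤ : ℕ∞) : WithTop ℕ∞) ψ U) :
    ContDiffOn ℝ ((⊤ : ℕ∞) : WithTop ℕ∞) (lapS f ψ) U := by
  obtain ⟨hE, hF, hG, hA, hAi⟩ := smooth_coeff hU hf himm
  have h1 := smooth_D1 hU hψ
  have h2 := smooth_D2 hU hψ
  have hV : ContDiffOn ℝ ((⊤ : ℕ∞) : WithTop ℕ∞)
      (fun q => (area f q)⁻¹ * (cG f q * D1 ψ q - cF f q * D2 ψ q)) U :=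
    hAi.mul ((hG.mul h1).sub (hF.mul h2))
  have hW : ContDiffOn ℝ ((⊤ : ℕ∞) : WithTop ℕ∞)
      (fun q => (area f q)⁻¹ * (cE f q * D2 ψ q - cF f q * D1 ψ q)) U :=
    hAi.mul ((hE.mul h2).sub (hF.mul h1))
  exact hAi.neg.mul ((smooth_D1 hU hV).add (smooth_D2 hU hW))

/-- `lapS` is linear on smooth functions. -/
theorem lapS_sum {U : Set (ℝ × ℝ)} (hU : IsOpen U) {f : ℝ × ℝ → E3}
    (hf : ContDiffOn ℝ ((⊤ : ℕ∞) : WithTop ℕ∞) f U)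
    (himm : ∀ p ∈ U, LinearIndependent ℝ ![d1 f p, d2 f p]) {ι : Type} (S : Finset ι)
    (c : ι → ℝ) (ψ : ι → ℝ × ℝ → ℝ)
    (hψ : ∀ i ∈ S, ContDiffOn ℝ ((⊤ : ℕ∞) : WithTop ℕ∞) (ψ i) U) {p : ℝ × ℝ} (hp : p ∈ U) :
    lapS f (fun q => ∑ i ∈ S, c i * ψ i q) p = ∑ i ∈ S, c i * lapS f (ψ i) p := by
  obtain ⟨hE, hF, hG, hA, hAi⟩ := smooth_coeff hU hf himm
  have hV : ∀ i ∈ S, ContDiffOn ℝ ((⊤ : ℕ∞) : WithTop ℕ∞)
      (fun q => (area f q)⁻¹ * (cG f q * D1 (ψ i) q - cF f q * D2 (ψ i) q)) U := fun i hi =>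
    hAi.mul ((hG.mul (smooth_D1 hU (hψ i hi))).sub (hF.mul (smooth_D2 hU (hψ i hi))))
  have hW : ∀ i ∈ S, ContDiffOn ℝ ((⊤ : ℕ∞) : WithTop ℕ∞)
      (fun q => (area f q)⁻¹ * (cE f q * D2 (ψ i) q - cF f q * D1 (ψ i) q)) U := fun i hi =>
    hAi.mul ((hE.mul (smooth_D2 hU (hψ i hi))).sub (hF.mul (smooth_D1 hU (hψ i hi))))
  have s1 : ∀ q ∈ U, D1 (fun q => ∑ i ∈ S, c i * ψ i q) q = ∑ i ∈ S, c i * D1 (ψ i) q :=
    fun q hq => comp67_fderiv_sum hU S c ψ hψ hq _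
  have s2 : ∀ q ∈ U, D2 (fun q => ∑ i ∈ S, c i * ψ i q) q = ∑ i ∈ S, c i * D2 (ψ i) q :=
    fun q hq => comp67_fderiv_sum hU S c ψ hψ hq _
  have e1 : D1 (fun q => (area f q)⁻¹ * (cG f q * D1 (fun q => ∑ i ∈ S, c i * ψ i q) q -
      cF f q * D2 (fun q => ∑ i ∈ S, c i * ψ i q) q)) p =
      ∑ i ∈ S, c i * D1 (fun q => (area f q)⁻¹ * (cG f q * D1 (ψ i) q - cF f q * D2 (ψ i) q)) p := by
    have h := comp67_fderiv_sum hU S c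
      (fun i q => (area f q)⁻¹ * (cG f q * D1 (ψ i) q - cF f q * D2 (ψ i) q)) hV hp (1, 0)
    refine Eq.trans ?_ h
    unfold D1
    rw [comp67_fderiv_congr hU (fun q hq => ?_) hp]
    have a1 := s1 q hq
    have a2 := s2 q hq
    unfold D1 at a1
    rw [a1, a2, Finset.mul_sum, Finset.mul_sum, ← Finset.sum_sub_distrib, Finset.mul_sum]
    refine Finset.sum_congr rfl fun i _ => ?_
    ring
  have e2 : D2 (fun q => (area f q)⁻¹ * (cE f q * D2 (fun q => ∑ i ∈ S, c i * ψ i q) q -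
      cF f q * D1 (fun q => ∑ i ∈ S, c i * ψ i q) q)) p =
      ∑ i ∈ S, c i * D2 (fun q => (area f q)⁻¹ * (cE f q * D2 (ψ i) q - cF f q * D1 (ψ i) q)) p := by
    have h := comp67_fderiv_sum hU S c
      (fun i q => (area f q)⁻¹ * (cE f q * D2 (ψ i) q - cF f q * D1 (ψ i) q)) hW hp (0, 1)
    refine Eq.trans ?_ h
    unfold D2
    rw [comp67_fderiv_congr hU (fun q hq => ?_) hp]
    have a1 := s1 q hq
    have a2 := s2 q hq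
    unfold D2 at a2
    rw [a1, a2, Finset.mul_sum, Finset.mul_sum, ← Finset.sum_sub_distrib, Finset.mul_sum]
    refine Finset.sum_congr rfl fun i _ => ?_
    ring
  unfold lapS
  rw [e1, e2, ← Finset.sum_add_distrib, Finset.mul_sum]
  refine Finset.sum_congr rfl fun i _ => ?_
  ring

/-- `lapS f ψ p` depends only on the germ of `ψ` at `p`. -/
theorem lapS_congr {f : ℝ × ℝ → E3} {O : Set (ℝ × ℝ)} (hO : IsOpen O) {ψ χ : ℝ × ℝ → ℝ}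
    (h : ∀ q ∈ O, ψ q = χ q) {p : ℝ × ℝ} (hp : p ∈ O) : lapS f ψ p = lapS f χ p := by
  have s1 : ∀ q ∈ O, D1 ψ q = D1 χ q := fun q hq => by
    unfold D1
    rw [comp67_fderiv_congr hO h hq]
  have s2 : ∀ q ∈ O, D2 ψ q = D2 χ q := fun q hq => by
    unfold D2
    rw [comp67_fderiv_congr hO h hq]
  have e1 : D1 (fun q => (area f q)⁻¹ * (cG f q * D1 ψ q - cF f q * D2 ψ q)) p =
      D1 (fun q => (area f q)⁻¹ * (cG f q * D1 χ q - cF f q * D2 χ q)) p := by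
    have h3 := comp67_fderiv_congr hO (ψ := fun q => (area f q)⁻¹ * (cG f q * D1 ψ q - cF f q * D2 ψ q))
      (χ := fun q => (area f q)⁻¹ * (cG f q * D1 χ q - cF f q * D2 χ q))
      (fun q hq => by simp only [s1 q hq, s2 q hq]) hp
    exact congrArg (fun L => L ((1 : ℝ), (0 : ℝ))) h3
  have e2 : D2 (fun q => (area f q)⁻¹ * (cE f q * D2 ψ q - cF f q * D1 ψ q)) p =
      D2 (fun q => (area f q)⁻¹ * (cE f q * D2 χ q - cF f q * D1 χ q)) p := by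
    have h3 := comp67_fderiv_congr hO (ψ := fun q => (area f q)⁻¹ * (cE f q * D2 ψ q - cF f q * D1 ψ q))
      (χ := fun q => (area f q)⁻¹ * (cE f q * D2 χ q - cF f q * D1 χ q))
      (fun q hq => by simp only [s1 q hq, s2 q hq]) hp
    exact congrArg (fun L => L ((0 : ℝ), (1 : ℝ))) h3
  unfold lapS
  rw [e1, e2]

end Pool.Agent.Helper60.AS
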