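import Pool.Agent.Helper60.AS.Deg
import Pool.Agent.Helper60.AS.Elim

/-!
# AS-DEEP: a function which is divisible arbitrarily often at infinity is zero

Suppose `F ∤ G₀`. `q` is not a constant, so `degreeOf k q > 0` for some `k`; `q ∣ cp ω D F ≠ 0` gives
`degreeOf k F ≥ degreeOf k (cp ω D F) > 0`. By `elim`: `a * F + b' * G₀ = ρ ≠ 0`, `degreeOf k ρ = 0`.
Let `DLE ω ρ d`, `cp ω d ρ ≠ 0` (`exists_top`), and let `e` bound the weights of `b' * W₀`. Take `n`
with `e - n < d`. For the corresponding `V, G', b, c`: `F ∣ ρ * V - b' * G' * W₀ =: F * R`. Its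
component of weight `d + b` is `cp ω d ρ * cp ω b V ≠ 0` (as `e + c < d + b`), and it is `DLE (d + b)`.
So `R ≠ 0`; with `r` the top weight of `R` (`exists_top`), `cp ω (D + r) (F * R) = cp ω D F * cp ω r R ≠
0` and `DLE (F * R) (D + r)`; comparing, `D + r = d + b` and `cp ω D F * cp ω r R = cp ω d ρ * cp ω b V`.
So the prime `q` divides `cp ω d ρ` or `cp ω b V`; the second is excluded; the first too, because
`degreeOf k (cp ω d ρ) = 0`, `cp ω d ρ ≠ 0`, `degreeOf k q > 0`.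
-/

set_option autoImplicit false

namespace Pool.Agent.Helper60.AS

open MvPolynomial

private theorem exists_pos_degree {q : Pl} (hq : Irreducible q) : ∃ k : Fin 3, 0 < degreeOf k q := by
  by_contra hcon
  push Not at hcon
  have h1 : q.vars = ∅ := by
    rw [Finset.eq_empty_iff_forall_notMem]
    intro k hk
    rw [mem_vars_iff_mem_support] at hk
    obtain ⟨d, hd, hkd⟩ := hk
    have h2 := (degreeOf_le_iff.1 (hcon k)) d hd
    rw [Finsupp.mem_support_iff] at hkd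
    omega
  rw [vars_eq_empty_iff_eq_C] at h1
  have h3 : q.coeff 0 ≠ 0 := by
    intro h0
    rw [h0, C_0] at h1
    exact hq.ne_zero h1
  apply hq.not_isUnit
  rw [h1]
  exact (isUnit_iff_ne_zero.2 h3).map C

private theorem degreeOf_dvd {q G : Pl} (h : q ∣ G) (hG : G ≠ 0) (k : Fin 3) :
    degreeOf k q ≤ degreeOf k G := by
  obtain ⟨R, rfl⟩ := h
  rw [degreeOf_mul_eq (left_ne_zero_of_mul hG) (right_ne_zero_of_mul hG)]
  exact Nat.le_add_right _ _

private theorem exists_dle (ω : Fin 3 → ℤ) (G : Pl) : ∃ e : ℤ, DLE ω G e := by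
  by_cases hG : G = 0
  · refine ⟨0, ?_⟩
    intro m hm
    rw [hG] at hm
    simp at hm
  · obtain ⟨n, hn, _⟩ := exists_top (ω := ω) hG
    exact ⟨n, hn⟩

theorem dvd_of_deep {ω : Fin 3 → ℤ} {D : ℤ} {F q : Pl} (hF : Irreducible F) (hFD : DLE ω F D)
    (hq : Irreducible q) (hqF : q ∣ cp ω D F) (hF0 : cp ω D F ≠ 0) {G₀ W₀ : Pl}
    (h : ∀ n : ℕ, ∃ (V G' : Pl) (b c : ℤ), DLE ω V b ∧ ¬ q ∣ cp ω b V ∧ DLE ω G' c ∧
      c - b ≤ -(n : ℤ) ∧ F ∣ G₀ * V - G' * W₀) :
    F ∣ G₀ := by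
  by_contra hG
  obtain ⟨k, hk⟩ := exists_pos_degree hq
  have hkF : 0 < degreeOf k F :=
    (hk.trans_le (degreeOf_dvd hqF hF0 k)).trans_le (degreeOf_cp k F D)
  obtain ⟨a, b', ρ, hρ, hρk, hab⟩ := elim F G₀ hF k hkF hG
  obtain ⟨d, hd, hd0⟩ := exists_top (ω := ω) hρ
  obtain ⟨e, he⟩ := exists_dle ω (b' * W₀)
  obtain ⟨V, G', b, c, hV, hqV, hG', hcb, A, hA⟩ := h (e - d + 1).toNat
  have hn : e - d + 1 ≤ ((e - d + 1).toNat : ℤ) := Int.self_le_toNat _
  have hlt : e + c < d + b := by linarith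
  set R : Pl := a * V + b' * A with hR
  have hFR : F * R = ρ * V - (b' * W₀) * G' := by
    rw [hR]
    linear_combination V * hab - b' * hA
  have hV0 : cp ω b V ≠ 0 := fun h0 => hqV (by rw [h0]; exact dvd_zero _)
  have hsub : ∀ (n : ℤ) (P Q : Pl), cp ω n (P - Q) = cp ω n P - cp ω n Q := by
    intro n P Q
    unfold cp
    rw [map_sub]
  have hY : DLE ω ((b' * W₀) * G') (e + c) := he.mul hG'
  have hcp : cp ω (d + b) (F * R) = cp ω d ρ * cp ω b V := by
    rw [hFR, hsub, cp_mul hd hV, cp_eq_zero hY hlt, sub_zero]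
  have hdle : DLE ω (F * R) (d + b) := by
    rw [hFR]
    exact (hd.mul hV).sub (hY.mono hlt.le)
  have hne : cp ω (d + b) (F * R) ≠ 0 := by
    rw [hcp]
    exact mul_ne_zero hd0 hV0
  have hR0 : R ≠ 0 := by
    intro h0
    apply hne
    rw [h0, mul_zero]
    unfold cp
    rw [map_zero]
  obtain ⟨r, hr, hr0⟩ := exists_top (ω := ω) hR0
  have h1 := cp_mul hFD hr
  have h2 : cp ω (D + r) (F * R) ≠ 0 := by
    rw [h1]
    exact mul_ne_zero hF0 hr0
  have h3 : D + r = d + b := by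
    rcases lt_trichotomy (D + r) (d + b) with hl | hl | hl
    · exact absurd (cp_eq_zero (hFD.mul hr) hl) hne
    · exact hl
    · exact absurd (cp_eq_zero hdle hl) h2
  have h4 : q ∣ cp ω d ρ * cp ω b V := by
    rw [← hcp, ← h3, h1]
    exact hqF.mul_right _
  rcases hq.prime.dvd_or_dvd h4 with h5 | h5
  · have h6 := degreeOf_dvd h5 hd0 k
    have h7 := degreeOf_cp k ρ d (ω := ω)
    omega
  · exact hqV h5

end Pool.Agent.Helper60.AS
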