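import Mathlib

/-!
# Finite type patches on algebraic surfaces: definitions (project AS, MP_078326_gt)
-/

set_option autoImplicit false

namespace Pool.Agent.Helper60.AS

open MvPolynomial

/-- Euclidean three space. -/
abbrev E3 : Type := EuclideanSpace ℝ (Fin 3)

/-- Real polynomials in three variables. -/
abbrev Pl : Type := MvPolynomial (Fin 3) ℝ

/-- First partial derivative of a vector valued function. -/
noncomputable def d1 (f : ℝ × ℝ → E3) (p : ℝ × ℝ) : E3 := fderiv ℝ f p ((1 : ℝ), (0 : ℝ))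

/-- Second partial derivative of a vector valued function. -/
noncomputable def d2 (f : ℝ × ℝ → E3) (p : ℝ × ℝ) : E3 := fderiv ℝ f p ((0 : ℝ), (1 : ℝ))

/-- Coefficient `E` of the first fundamental form of `f`. -/
noncomputable def cE (f : ℝ × ℝ → E3) (p : ℝ × ℝ) : ℝ := inner ℝ (d1 f p) (d1 f p)

/-- Coefficient `F` of the first fundamental form of `f`. -/
noncomputable def cF (f : ℝ × ℝ → E3) (p : ℝ × ℝ) : ℝ := inner ℝ (d1 f p) (d2 f p)

/-- Coefficient `G` of the first fundamental form of `f`. -/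
noncomputable def cG (f : ℝ × ℝ → E3) (p : ℝ × ℝ) : ℝ := inner ℝ (d2 f p) (d2 f p)

/-- The area density of `f`. -/
noncomputable def area (f : ℝ × ℝ → E3) (p : ℝ × ℝ) : ℝ := Real.sqrt (cE f p * cG f p - cF f p ^ 2)

/-- The Laplace-Beltrami operator of the patch `f` (nonnegative spectrum convention), applied to
the vector valued function `φ`, as in the frozen statement S12701. -/
noncomputable def lap (f φ : ℝ × ℝ → E3) (p : ℝ × ℝ) : E3 :=
  -(area f p)⁻¹ •
    (d1 (fun q => (area f q)⁻¹ • (cG f q • d1 φ q - cF f q • d2 φ q)) p +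
      d2 (fun q => (area f q)⁻¹ • (cE f q • d2 φ q - cF f q • d1 φ q)) p)

/-- `f` is of finite type on `U`: a finite sum of smooth eigenfunctions of its Laplace-Beltrami
operator. -/
def FiniteType (f : ℝ × ℝ → E3) (U : Set (ℝ × ℝ)) : Prop :=
  ∃ (k : ℕ) (x : Fin k → ℝ × ℝ → E3) (lam : Fin k → ℝ),
    (∀ i, ContDiffOn ℝ ((⊤ : ℕ∞) : WithTop ℕ∞) (x i) U) ∧
    (∀ p ∈ U, f p = ∑ i, x i p) ∧
    (∀ i, ∀ p ∈ U, lap f (x i) p = lam i • x i p)

/-- The value of the polynomial `G` at the point `f p`. -/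
noncomputable def ev (f : ℝ × ℝ → E3) (G : Pl) (p : ℝ × ℝ) : ℝ := MvPolynomial.eval (fun i => f p i) G

/-- `f` is a smooth immersed surface patch on the open set `U`, lying on the algebraic surface
`F = 0`. -/
structure IsPatch (U : Set (ℝ × ℝ)) (f : ℝ × ℝ → E3) (F : Pl) : Prop where
  isOpen : IsOpen U
  smooth : ContDiffOn ℝ ((⊤ : ℕ∞) : WithTop ℕ∞) f U
  immersion : ∀ p ∈ U, LinearIndependent ℝ ![d1 f p, d2 f p]
  zero : ∀ p ∈ U, ev f F p = 0

/-! ### scalar versions -/

/-- First partial derivative of a scalar function. -/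
noncomputable def D1 (ψ : ℝ × ℝ → ℝ) (p : ℝ × ℝ) : ℝ := fderiv ℝ ψ p ((1 : ℝ), (0 : ℝ))

/-- Second partial derivative of a scalar function. -/
noncomputable def D2 (ψ : ℝ × ℝ → ℝ) (p : ℝ × ℝ) : ℝ := fderiv ℝ ψ p ((0 : ℝ), (1 : ℝ))

/-- The Laplace-Beltrami operator of `f` applied to a scalar function. -/
noncomputable def lapS (f : ℝ × ℝ → E3) (ψ : ℝ × ℝ → ℝ) (p : ℝ × ℝ) : ℝ :=
  -(area f p)⁻¹ *
    (D1 (fun q => (area f q)⁻¹ * (cG f q * D1 ψ q - cF f q * D2 ψ q)) p +
      D2 (fun q => (area f q)⁻¹ * (cE f q * D2 ψ q - cF f q * D1 ψ q)) p)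

/-! ### polynomials -/

/-- `|grad F|²`. -/
noncomputable def wP (F : Pl) : Pl := ∑ i, pderiv i F ^ 2

/-- `Hess F (grad F, grad F)`. -/
noncomputable def hP (F : Pl) : Pl :=
  ∑ i, ∑ j, pderiv i (pderiv j F) * pderiv i F * pderiv j F

/-- The derivation `T_k = (grad F × ∇)_k`; it kills `F`. -/
noncomputable def T (F : Pl) (k : Fin 3) (G : Pl) : Pl :=
  pderiv (k + 1) F * pderiv (k + 2) G - pderiv (k + 2) F * pderiv (k + 1) G

/-- The numerator of `T_k (G / V)`, the denominator is `V²`. -/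
noncomputable def GG (F G V : Pl) (k : Fin 3) : Pl := V * T F k G - G * T F k V

/-- The numerator of the Laplacian of `G / V`, the denominator is `2 w² V³`, `w = |grad F|²`. -/
noncomputable def Num (F G V : Pl) : Pl :=
  ∑ k, (2 * wP F * (V * T F k (GG F G V k) - 2 * GG F G V k * T F k V)
    - V * T F k (wP F) * GG F G V k)

/-- The numerator of the Laplacian of `G / w^m`, the denominator is `w^(m+3)`. -/
noncomputable def Lw (F G : Pl) (m : ℕ) : Pl :=
  ∑ k, (wP F ^ 2 * T F k (T F k G) - C (2 * (m : ℝ)) * wP F * T F k (wP F) * T F k G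
      - C (m : ℝ) * wP F * G * T F k (T F k (wP F))
      + C ((m : ℝ) * (m + 1)) * G * T F k (wP F) ^ 2
      - C (1 / 2 : ℝ) * T F k (wP F) * (wP F * T F k G - C (m : ℝ) * G * T F k (wP F)))

/-- All monomials of `G` have weight at most `n`. -/
def DLE (ω : Fin 3 → ℤ) (G : Pl) (n : ℤ) : Prop := ∀ m ∈ G.support, Finsupp.weight ω m ≤ n

/-- The weighted homogeneous component of weight `n`. -/
noncomputable def cp (ω : Fin 3 → ℤ) (n : ℤ) (G : Pl) : Pl := weightedHomogeneousComponent ω n G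

/-- Spectral decomposition of the scalar function `u` on `U` with respect to the Laplacian of
`f`: `u` is the sum of the `e l`, `l ∈ S`, and `e l` is smooth with eigenvalue `l`. -/
structure Spec (U : Set (ℝ × ℝ)) (f : ℝ × ℝ → E3) (u : ℝ × ℝ → ℝ) (S : Finset ℝ)
    (e : ℝ → ℝ × ℝ → ℝ) : Prop where
  nonempty : S.Nonempty
  smooth : ∀ l ∈ S, ContDiffOn ℝ ((⊤ : ℕ∞) : WithTop ℕ∞) (e l) U
  eigen : ∀ l ∈ S, ∀ p ∈ U, lapS f (e l) p = l * e l p
  sum : ∀ p ∈ U, u p = ∑ l ∈ S, e l p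

end Pool.Agent.Helper60.AS
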