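import Pool.Agent.Helper60.AS.Defs

/-!
# AS-DEG: weighted degrees

`DLE ω G n`: all monomials of `G` have `ω`-weight at most `n`; `cp ω n G` is the component of weight
`n`. Everything is a statement about supports and coefficients.
-/

set_option autoImplicit false

namespace Pool.Agent.Helper60.AS

open MvPolynomial

variable {ω : Fin 3 → ℤ}

private theorem dle_coeff {G : Pl} {n : ℤ} (h : DLE ω G n) {m : Fin 3 →₀ ℕ} (hm : n < Finsupp.weight ω m) :
    coeff m G = 0 := by
  by_contra hne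
  exact absurd (h m (mem_support_iff.2 hne)) (not_le.2 hm)

private theorem dle_of_coeff {G : Pl} {n : ℤ} (h : ∀ m : Fin 3 →₀ ℕ, n < Finsupp.weight ω m → coeff m G = 0) :
    DLE ω G n := by
  intro m hm
  by_contra hcon
  exact (mem_support_iff.1 hm) (h m (not_le.1 hcon))

private theorem cp_coeff (n : ℤ) (G : Pl) (m : Fin 3 →₀ ℕ) :
    coeff m (cp ω n G) = if Finsupp.weight ω m = n then coeff m G else 0 := by
  unfold cp
  rw [coeff_weightedHomogeneousComponent]

theorem DLE.mono {G : Pl} {m n : ℤ} (h : DLE ω G m) (hmn : m ≤ n) : DLE ω G n :=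
  fun d hd => (h d hd).trans hmn

theorem DLE.add {G H : Pl} {n : ℤ} (hG : DLE ω G n) (hH : DLE ω H n) : DLE ω (G + H) n := by
  apply dle_of_coeff
  intro m hm
  rw [coeff_add, dle_coeff hG hm, dle_coeff hH hm, add_zero]

theorem DLE.sub {G H : Pl} {n : ℤ} (hG : DLE ω G n) (hH : DLE ω H n) : DLE ω (G - H) n := by
  apply dle_of_coeff
  intro m hm
  rw [coeff_sub, dle_coeff hG hm, dle_coeff hH hm, sub_zero]

theorem DLE.sum {ι : Type} {S : Finset ι} {G : ι → Pl} {n : ℤ} (hG : ∀ i ∈ S, DLE ω (G i) n) :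
    DLE ω (∑ i ∈ S, G i) n := by
  apply dle_of_coeff
  intro m hm
  rw [coeff_sum]
  exact Finset.sum_eq_zero fun i hi => dle_coeff (hG i hi) hm

theorem DLE.mul {G H : Pl} {m n : ℤ} (hG : DLE ω G m) (hH : DLE ω H n) : DLE ω (G * H) (m + n) := by
  apply dle_of_coeff
  intro d hd
  rw [coeff_mul]
  apply Finset.sum_eq_zero
  rintro ⟨a, b⟩ hab
  rw [Finset.HasAntidiagonal.mem_antidiagonal] at hab
  simp only at hab ⊢
  rw [← hab, map_add] at hd
  rcases lt_or_ge m (Finsupp.weight ω a) with h | h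
  · rw [dle_coeff hG h, zero_mul]
  · rw [dle_coeff hH (m := b) (by linarith), mul_zero]

theorem DLE.C (r : ℝ) : DLE ω (MvPolynomial.C r) 0 := by
  intro m hm
  rw [mem_support_iff, coeff_C] at hm
  split_ifs at hm with h
  · rw [← h, map_zero]
  · exact absurd rfl hm

private theorem dle_one : DLE ω (1 : Pl) 0 := by
  have := DLE.C (ω := ω) 1
  rwa [MvPolynomial.C_1] at this

theorem DLE.pow {G : Pl} {m : ℤ} (hG : DLE ω G m) (n : ℕ) : DLE ω (G ^ n) (n * m) := by
  induction n with
  | zero => simpa using dle_one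
  | succ n ih =>
    rw [pow_succ]
    have := ih.mul hG
    refine this.mono (le_of_eq ?_)
    push_cast
    ring

theorem DLE.two : DLE ω (2 : Pl) 0 := by
  have := DLE.C (ω := ω) 2
  rwa [map_ofNat] at this

private theorem weight_single (i : Fin 3) (m : Fin 3 →₀ ℕ) :
    Finsupp.weight ω (m + Finsupp.single i 1) = Finsupp.weight ω m + ω i := by
  rw [map_add, Finsupp.weight_single, one_smul]

theorem DLE.pderiv {G : Pl} {n : ℤ} (hG : DLE ω G n) (i : Fin 3) :
    DLE ω (MvPolynomial.pderiv i G) (n - ω i) := by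
  apply dle_of_coeff
  intro m hm
  rw [coeff_pderiv, dle_coeff hG, zero_mul]
  rw [weight_single]
  linarith

theorem cp_mul {G H : Pl} {m n : ℤ} (hG : DLE ω G m) (hH : DLE ω H n) :
    cp ω (m + n) (G * H) = cp ω m G * cp ω n H := by
  ext d
  rw [cp_coeff, coeff_mul, coeff_mul]
  split_ifs with h
  · apply Finset.sum_congr rfl
    rintro ⟨a, b⟩ hab
    rw [Finset.HasAntidiagonal.mem_antidiagonal] at hab
    simp only at hab ⊢
    rw [← hab, map_add] at h
    rw [cp_coeff, cp_coeff]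
    rcases lt_trichotomy (Finsupp.weight ω a) m with h1 | h1 | h1
    · rw [dle_coeff hH (m := b) (by linarith), if_neg h1.ne]
      simp
    · rw [if_pos h1, if_pos (by linarith)]
    · rw [dle_coeff hG h1, if_neg h1.ne']
      simp
  · symm
    apply Finset.sum_eq_zero
    rintro ⟨a, b⟩ hab
    rw [Finset.HasAntidiagonal.mem_antidiagonal] at hab
    simp only at hab ⊢
    rw [← hab, map_add] at h
    rw [cp_coeff, cp_coeff]
    split_ifs with h1 h2
    · exact absurd (by rw [h1, h2]) h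
    · simp
    · simp
    · simp

theorem cp_pow {G : Pl} {m : ℤ} (hG : DLE ω G m) (n : ℕ) : cp ω (n * m) (G ^ n) = cp ω m G ^ n := by
  induction n with
  | zero =>
    ext d
    rw [cp_coeff, pow_zero, pow_zero, coeff_one]
    split_ifs with h1 h2
    · rfl
    · rfl
    · rename_i h3
      exfalso
      apply h1
      rw [← h3]
      simp
    · rfl
  | succ n ih =>
    have h := cp_mul (hG.pow n) hG
    rw [pow_succ, pow_succ, ← ih, ← h]
    congr 1
    push_cast
    ring

theorem cp_eq_zero {G : Pl} {m n : ℤ} (hG : DLE ω G m) (hmn : m < n) : cp ω n G = 0 := by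
  ext d
  rw [cp_coeff, coeff_zero]
  split_ifs with h
  · exact dle_coeff hG (by linarith)
  · rfl

theorem cp_pderiv (G : Pl) (n : ℤ) (i : Fin 3) :
    cp ω (n - ω i) (pderiv i G) = pderiv i (cp ω n G) := by
  ext d
  rw [cp_coeff, coeff_pderiv, coeff_pderiv, cp_coeff, weight_single]
  by_cases h : Finsupp.weight ω d = n - ω i
  · rw [if_pos h, if_pos (by linarith)]
  · rw [if_neg h, if_neg (fun h' => h (by linarith)), zero_mul]

theorem exists_top {G : Pl} (hG : G ≠ 0) : ∃ n : ℤ, DLE ω G n ∧ cp ω n G ≠ 0 := by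
  have hne : G.support.Nonempty := support_nonempty.2 hG
  obtain ⟨d, hd, hmax⟩ := Finset.exists_max_image G.support (fun m => Finsupp.weight ω m) hne
  refine ⟨Finsupp.weight ω d, fun m hm => hmax m hm, fun h0 => ?_⟩
  have h1 := cp_coeff (ω := ω) (Finsupp.weight ω d) G d
  rw [h0, coeff_zero, if_pos rfl] at h1
  exact (mem_support_iff.1 hd) h1.symm

theorem degreeOf_cp (k : Fin 3) (G : Pl) (n : ℤ) : degreeOf k (cp ω n G) ≤ degreeOf k G := by
  rw [degreeOf_le_iff]
  intro m hm
  rw [mem_support_iff, cp_coeff] at hm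
  split_ifs at hm with h
  · exact (degreeOf_le_iff.1 le_rfl) m (mem_support_iff.2 hm)
  · exact absurd rfl hm

theorem DLE_T {F G : Pl} {D a : ℤ} (hF : DLE ω F D) (hG : DLE ω G a) (k : Fin 3) :
    DLE ω (T F k G) (a + D - ω (k + 1) - ω (k + 2)) := by
  unfold T
  apply DLE.sub
  · exact ((hF.pderiv (k + 1)).mul (hG.pderiv (k + 2))).mono (le_of_eq (by ring))
  · exact ((hF.pderiv (k + 2)).mul (hG.pderiv (k + 1))).mono (le_of_eq (by ring))

theorem DLE_w {F : Pl} {D μ : ℤ} (hF : DLE ω F D) (hμ : ∀ i, μ ≤ ω i) :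
    DLE ω (wP F) (2 * (D - μ)) := by
  unfold wP
  apply DLE.sum
  intro i _
  refine ((hF.pderiv i).pow 2).mono ?_
  have := hμ i
  push_cast
  linarith

theorem cp_w {F : Pl} {D μ : ℤ} (hF : DLE ω F D) (hμ : ∀ i, μ ≤ ω i) :
    cp ω (2 * (D - μ)) (wP F) = ∑ i with ω i = μ, pderiv i (cp ω D F) ^ 2 := by
  unfold wP
  have h1 : cp ω (2 * (D - μ)) (∑ i, pderiv i F ^ 2) = ∑ i, cp ω (2 * (D - μ)) (pderiv i F ^ 2) := by
    unfold cp
    rw [map_sum]
  rw [h1, Finset.sum_filter]
  apply Finset.sum_congr rfl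
  intro i _
  have h2 := (hF.pderiv i).pow 2
  split_ifs with h
  · have h3 := cp_pow (hF.pderiv i) 2
    rw [cp_pderiv] at h3
    rw [← h3, h]
    congr 1
  · apply cp_eq_zero h2
    have h4 := hμ i
    have h5 : μ < ω i := lt_of_le_of_ne h4 (fun e => h e.symm)
    push_cast
    linarith

/-- The Laplacian lowers the weight by at least two: the denominator of the Laplacian of `G / V` is
`2 w² V³`. -/
theorem DLE_Num {F G V : Pl} {D μ a b : ℤ} (hF : DLE ω F D) (hμ : ∀ i, μ ≤ ω i)
    (hs : ∀ i j, i ≠ j → μ < ω i + ω j) (hG : DLE ω G a) (hV : DLE ω V b) :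
    DLE ω (Num F G V) (a + 2 * b + 4 * (D - μ) - 2) := by
  unfold Num
  apply DLE.sum
  intro k _
  have hk : k + 1 ≠ k + 2 := by fin_cases k <;> decide
  have hsk := hs _ _ hk
  have hw := DLE_w hF hμ
  have hTG := DLE_T hF hG k
  have hTV := DLE_T hF hV k
  have hTw := DLE_T hF hw k
  have hGG : DLE ω (GG F G V k) (a + b + D - ω (k + 1) - ω (k + 2)) := by
    unfold GG
    apply DLE.sub
    · exact (hV.mul hTG).mono (le_of_eq (by ring))
    · exact (hG.mul hTV).mono (le_of_eq (by ring))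
  have hTGG := DLE_T hF hGG k
  have hx : DLE ω (V * T F k (GG F G V k) - 2 * GG F G V k * T F k V)
      (a + 2 * b + 2 * D - 2 * ω (k + 1) - 2 * ω (k + 2)) := by
    apply DLE.sub
    · exact (hV.mul hTGG).mono (le_of_eq (by ring))
    · exact ((DLE.two.mul hGG).mul hTV).mono (le_of_eq (by ring))
  apply DLE.sub
  · refine ((DLE.two.mul hw).mul hx).mono ?_
    linarith
  · refine ((hV.mul hTw).mul hGG).mono ?_
    linarith

end Pool.Agent.Helper60.AS
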