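import Pool.Agent.Helper60.AS.Rat
import Pool.Agent.Helper60.AS.Van
import Pool.Agent.Helper60.AS.Deep

/-!
# AS-EIG: a rational eigenfunction with a nonzero eigenvalue vanishes (case A)

Let `O = {p ∈ U | ev f (wP F) p ≠ 0}` (open). If `O` is empty there is nothing to prove. Let
`m₀ = 2 (D - μ)` (so `DLE (wP F) m₀`, `¬ q ∣ cp m₀ (wP F)`). Claim: there is `e` such that for all `n`
there are `V, G', b, c` with `DLE V b`, `¬ q ∣ cp b V`, `DLE G' c`, `c - b ≤ e - 2 n` and on `O`: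
`ev f V ≠ 0`, `ψ = ev f G' / ev f V`. For `n = 0`: `V = wP F ^ a`, `G' = G₀`. Step: `ψ = lam⁻¹ * lapS f ψ`
and `lapS f ψ = lapS f (ev f G' / ev f V)` on `O` (`lapS_congr`), so by `lapS_ratio`
`ψ = ev (C (-lam⁻¹) * Num F G' V) / ev (2 * wP F ^ 2 * V ^ 3)`; `DLE_Num` and
`cp (2 m₀ + 3 b) (2 w² V³) = 2 (cp m₀ w)² (cp b V)³`, not divisible by the prime `q`. Then
`ev f (G₀ * V - G' * wP F ^ a) = 0` on `O`, so `F ∣ G₀ * V - G' * wP F ^ a` (`dvd_of_vanish`), and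
`dvd_of_deep` gives `F ∣ G₀`, so `ev f G₀ = 0` on `U`.
-/

set_option autoImplicit false

namespace Pool.Agent.Helper60.AS

open MvPolynomial

private theorem eig80_dle (ω : Fin 3 → ℤ) (G : Pl) : ∃ e : ℤ, DLE ω G e := by
  by_cases hG : G = 0
  · refine ⟨0, ?_⟩
    intro m hm
    rw [hG] at hm
    simp at hm
  · obtain ⟨n, hn, _⟩ := exists_top (ω := ω) hG
    exact ⟨n, hn⟩

private theorem eig80_open {U : Set (ℝ × ℝ)} {f : ℝ × ℝ → E3} {F : Pl} (h : IsPatch U f F) :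
    IsOpen {p : ℝ × ℝ | p ∈ U ∧ ev f (wP F) p ≠ 0} := by
  rw [isOpen_iff_mem_nhds]
  rintro p ⟨hp, hw⟩
  have c1 : ContinuousAt (ev f (wP F)) p :=
    ((smooth_ev h.smooth (wP F)).contDiffAt (h.isOpen.mem_nhds hp)).continuousAt
  filter_upwards [h.isOpen.mem_nhds hp, c1.eventually_ne hw] with q a b
  exact ⟨a, b⟩

private theorem eig80_mul (f : ℝ × ℝ → E3) (P Q : Pl) (p : ℝ × ℝ) :
    ev f (P * Q) p = ev f P p * ev f Q p := by simp [ev]

private theorem eig80_pow (f : ℝ × ℝ → E3) (P : Pl) (m : ℕ) (p : ℝ × ℝ) :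
    ev f (P ^ m) p = ev f P p ^ m := by simp [ev]

private theorem eig80_C (f : ℝ × ℝ → E3) (r : ℝ) (p : ℝ × ℝ) : ev f (C r) p = r := by simp [ev]

private theorem eig80_sub (f : ℝ × ℝ → E3) (P Q : Pl) (p : ℝ × ℝ) :
    ev f (P - Q) p = ev f P p - ev f Q p := by simp [ev]

theorem eig_zero {U : Set (ℝ × ℝ)} {f : ℝ × ℝ → E3} {F : Pl} (h : IsPatch U f F)
    (hF : Irreducible F) {ω : Fin 3 → ℤ} {D μ : ℤ} {q : Pl} (hFD : DLE ω F D) (hμ : ∀ i, μ ≤ ω i)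
    (hs : ∀ i j, i ≠ j → μ < ω i + ω j) (hq : Irreducible q) (hqF : q ∣ cp ω D F)
    (hF0 : cp ω D F ≠ 0) (hqw : ¬ q ∣ cp ω (2 * (D - μ)) (wP F))
    {ψ : ℝ × ℝ → ℝ} {lam : ℝ} (hlam : lam ≠ 0) (hψ : ∀ p ∈ U, lapS f ψ p = lam * ψ p)
    {G₀ : Pl} {a : ℕ}
    (hrep : ∀ p ∈ U, ev f (wP F) p ≠ 0 → ψ p = ev f G₀ p / ev f (wP F) p ^ a) :
    ∀ p ∈ U, ev f (wP F) p ≠ 0 → ψ p = 0 := by
  have hqp : Prime q := hq.prime
  have hF' := hFD
  have hw := DLE_w hFD hμ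
  set O : Set (ℝ × ℝ) := {p : ℝ × ℝ | p ∈ U ∧ ev f (wP F) p ≠ 0} with hOdef
  have hO : IsOpen O := eig80_open h
  have hOU : O ⊆ U := fun p hp => hp.1
  have claim : ∃ e : ℤ, ∀ n : ℕ, ∃ (V G' : Pl) (b c : ℤ), DLE ω V b ∧ ¬ q ∣ cp ω b V ∧ DLE ω G' c ∧
      c - b ≤ e - 2 * (n : ℤ) ∧ ∀ p ∈ O, ev f V p ≠ 0 ∧ ψ p = ev f G' p / ev f V p := by
    obtain ⟨c₀, hc₀⟩ := eig80_dle ω G₀
    refine ⟨c₀ - (a : ℤ) * (2 * (D - μ)), fun n => ?_⟩
    induction n with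
    | zero =>
      refine ⟨wP F ^ a, G₀, (a : ℤ) * (2 * (D - μ)), c₀, hw.pow a, ?_, hc₀, ?_, ?_⟩
      · rw [cp_pow hw a]
        exact fun hd => hqw (hqp.dvd_of_dvd_pow hd)
      · push_cast
        linarith
      · intro p hp
        rw [eig80_pow]
        exact ⟨pow_ne_zero _ hp.2, hrep p hp.1 hp.2⟩
    | succ n ih =>
      obtain ⟨V, G', b, c, hV, hqV, hG', hcb, hval⟩ := ih
      refine ⟨wP F ^ 2 * V ^ 3, C (-lam⁻¹ / 2) * Num F G' V, ((2 : ℕ) : ℤ) * (2 * (D - μ)) + ((3 : ℕ) : ℤ) * b,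
        0 + (c + 2 * b + 4 * (D - μ) - 2), (hw.pow 2).mul (hV.pow 3), ?_,
        (DLE.C _).mul (DLE_Num hFD hμ hs hG' hV), ?_, ?_⟩
      · rw [cp_mul (hw.pow 2) (hV.pow 3), cp_pow hw 2, cp_pow hV 3]
        intro hd
        rcases hqp.dvd_or_dvd hd with h1 | h1
        · exact hqw (hqp.dvd_of_dvd_pow h1)
        · exact hqV (hqp.dvd_of_dvd_pow h1)
      · push_cast
        linarith
      · intro p hp
        have hVp := (hval p hp).1
        have hwp := hp.2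
        have h1 : lapS f ψ p = lapS f (fun q => ev f G' q / ev f V q) p :=
          lapS_congr hO (fun q hq => (hval q hq).2) hp
        have h2 := lapS_ratio h G' V hp.1 hwp hVp
        rw [hψ p hp.1, h2] at h1
        rw [eig80_mul, eig80_mul, eig80_C, eig80_pow, eig80_pow]
        refine ⟨mul_ne_zero (pow_ne_zero _ hwp) (pow_ne_zero _ hVp), ?_⟩
        have h3 : ψ p = lam⁻¹ * (-ev f (Num F G' V) p / (2 * ev f (wP F) p ^ 2 * ev f V p ^ 3)) := by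
          rw [← h1]
          field_simp
        rw [h3]
        field_simp
  obtain ⟨e, he⟩ := claim
  intro p hp hwp
  have hdvd : F ∣ G₀ := by
    refine dvd_of_deep (W₀ := wP F ^ a) hF hFD hq hqF hF0 fun n => ?_
    obtain ⟨V, G', b, c, hV, hqV, hG', hcb, hval⟩ := he (e.toNat + n)
    refine ⟨V, G', b, c, hV, hqV, hG', ?_, ?_⟩
    · have h1 : e ≤ (e.toNat : ℤ) := Int.self_le_toNat _
      push_cast at hcb
      linarith
    · refine dvd_of_vanish h hF hO ⟨p, hp, hwp⟩ hOU fun r hr => ?_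
      have h1 := hval r hr
      have h2 := hrep r hr.1 hr.2
      rw [h1.2, div_eq_div_iff h1.1 (pow_ne_zero _ hr.2)] at h2
      rw [eig80_sub, eig80_mul, eig80_mul, eig80_pow]
      linarith
  obtain ⟨R, hR⟩ := hdvd
  rw [hrep p hp hwp, hR, eig80_mul, h.zero p hp, zero_mul, zero_div]

end Pool.Agent.Helper60.AS
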