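import Pool.Agent.Helper60.AS.Eig
import Pool.Agent.Helper60.AS.CaseB

/-!
# Finite type patches on algebraic surfaces: assembly
-/

set_option autoImplicit false

namespace Pool.Agent.Helper60.AS

open MvPolynomial

/-- There are integer weights `ω` of the three coordinates, with least value `μ` and with
`ω i + ω j > μ` for `i ≠ j`, such that the part `G` of `F` of highest weight `D` has a complex zero `v`
at which the partial derivatives of `G` in the directions of least weight satisfy
`∑ (∂ᵢ G(v))² ≠ 0`. For the weights `(1, 1, 1)`: the surface has a (complex) point at infinity at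
which the normal is not isotropic. -/
def RegularAtInfinity (F : Pl) : Prop :=
  ∃ (ω : Fin 3 → ℤ) (D μ : ℤ) (v : Fin 3 → ℂ), (∀ m ∈ F.support, Finsupp.weight ω m ≤ D) ∧
    (∀ i, μ ≤ ω i) ∧ (∀ i j, i ≠ j → μ < ω i + ω j) ∧
    aeval v (weightedHomogeneousComponent ω D F) = 0 ∧
    ∑ i with ω i = μ, (aeval v (pderiv i (weightedHomogeneousComponent ω D F))) ^ 2 ≠ 0

/-- There is a complex point `z` of the surface `F = 0` at which the normal `N = grad F(z)` is
isotropic, `N · N = 0`, and `Hess F(z) (N, N) ≠ 0`. -/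
def TransversalIsotropic (F : Pl) : Prop :=
  ∃ z : Fin 3 → ℂ, aeval z F = 0 ∧ ∑ i, (aeval z (pderiv i F)) ^ 2 = 0 ∧
    ∑ i, ∑ j, aeval z (pderiv i (pderiv j F)) * aeval z (pderiv i F) * aeval z (pderiv j F) ≠ 0

theorem exists_factor {G : Pl} {v : Fin 3 → ℂ} (hG : G ≠ 0) (hv : aeval v G = 0) :
    ∃ q : Pl, Irreducible q ∧ q ∣ G ∧ aeval v q = 0 := by
  obtain ⟨s, hs, hass⟩ := WfDvdMonoid.exists_factors G hG
  have h1 : aeval v s.prod = 0 := by
    obtain ⟨u, hu⟩ := hass
    rw [← hu, map_mul] at hv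
    rcases mul_eq_zero.mp hv with h | h
    · exact h
    · exfalso
      have := u.isUnit.map (aeval v : Pl →ₐ[ℝ] ℂ)
      rw [h] at this
      exact not_isUnit_zero this
  rw [map_multiset_prod, Multiset.prod_eq_zero_iff, Multiset.mem_map] at h1
  obtain ⟨q, hq, hq0⟩ := h1
  exact ⟨q, hs q hq, (Multiset.dvd_prod hq).trans hass.dvd, hq0⟩

/-- The theorem for a surface given in the coordinates of `f` itself. -/
theorem minimal_of_patch {U : Set (ℝ × ℝ)} {f : ℝ × ℝ → E3} {F : Pl} (h : IsPatch U f F)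
    (hF : Irreducible F) (hcond : RegularAtInfinity F ∨ TransversalIsotropic F)
    (hft : FiniteType f U) : ∀ p ∈ U, lap f f p = 0 := by
  intro p hp
  rcases hcond with hA | hB
  · obtain ⟨ω, D, μ, v, hFD, hμ, hs, hv, hw⟩ := hA
    have hF0 : cp ω D F ≠ 0 := by
      intro h0
      apply hw
      have h0' : weightedHomogeneousComponent ω D F = 0 := h0
      rw [h0']
      simp
    obtain ⟨q, hq, hqF, hqv⟩ := exists_factor hF0 hv
    have hqw : ¬ q ∣ cp ω (2 * (D - μ)) (wP F) := by
      rw [cp_w hFD hμ]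
      rintro ⟨r, hr⟩
      apply hw
      have h1 := congrArg (aeval v) hr
      rw [map_mul, hqv, zero_mul, map_sum] at h1
      simpa [cp] using h1
    ext a
    obtain ⟨S, e, hS, hlap⟩ := exists_spec h hft a
    have hreg : ∀ p' ∈ U, ev f (wP F) p' ≠ 0 → ∑ l ∈ S, l * e l p' = 0 := by
      intro p' hp' hw'
      apply Finset.sum_eq_zero
      intro l hl
      by_cases hl0 : l = 0
      · rw [hl0, zero_mul]
      · obtain ⟨G, m, hrep⟩ := eig_rep h a hS hl
        rw [eig_zero h hF hFD hμ hs hq hqF hF0 hqw hl0 (hS.eigen l hl) hrep p' hp' hw', mul_zero]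
    have hcont : ContinuousOn (fun p' => ∑ l ∈ S, l * e l p') U := by
      apply continuousOn_finsetSum
      intro l hl
      exact continuousOn_const.mul (hS.smooth l hl).continuousOn
    rw [hlap p hp]
    by_contra hne
    have hopen : IsOpen (U ∩ (fun p' => ∑ l ∈ S, l * e l p') ⁻¹' {x | x ≠ 0}) :=
      hcont.isOpen_inter_preimage h.isOpen isOpen_ne
    obtain ⟨p', hp', hw'⟩ := exists_reg h hF hopen ⟨p, hp, hne⟩ Set.inter_subset_left
    exact hp'.2 (hreg p' hp'.1 hw')
  · obtain ⟨z, h0, h1, h2⟩ := hB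
    exfalso
    apply no_finite_type h hF ⟨p, hp⟩ hft (z := z) h0
    · simpa [wP, map_sum] using h1
    · simpa [hP, map_sum] using h2

end Pool.Agent.Helper60.AS
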