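import Pool.Agent.Helper60.AS.Rat

/-!
# AS-ITER: spectral components are rational

`exists_spec`: from `FiniteType` take `S = insert 0 (image lam univ)` and
`e l q = ∑ i with lam i = l, x i q a`; use `lap_apply`, `lapS_sum`, `lapS_congr`.

`iter_rep`: for `P j = ∑ l ∈ S, l ^ j * e l`: `lapS f (P j) = P (j + 1)` on `U`; `P 0 = u = ev f (X a)`,
and by `lapS_w` the functions `P j` are `ev f (Gs F a j') / w^(3 j' + 2)`, `j = j' + 1`.

`eig_rep`: for `l ∈ S` let `Q = ∏ μ ∈ S.erase l, (X - C μ) / (l - μ)`, then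
`e l = ∑ j, Q.coeff j * P j` (`Q l = 1`, `Q l' = 0` for `l' ∈ S.erase l`), a combination of fractions
with denominators powers of `w`.
-/

set_option autoImplicit false

namespace Pool.Agent.Helper60.AS

open MvPolynomial

/-- Numerators of the iterated Laplacians of the coordinate function `x_a`: the function
`lapS^(j+1) x_a` is `Gs j / w^(3 j + 2)`. -/
noncomputable def Gs (F : Pl) (a : Fin 3) : ℕ → Pl
  | 0 => -∑ k, (wP F * T F k (T F k (X a)) - C (1 / 2 : ℝ) * T F k (wP F) * T F k (X a))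
  | j + 1 => -Lw F (Gs F a j) (3 * j + 2)

theorem exists_spec {U : Set (ℝ × ℝ)} {f : ℝ × ℝ → E3} {F : Pl} (h : IsPatch U f F)
    (hft : FiniteType f U) (a : Fin 3) :
    ∃ (S : Finset ℝ) (e : ℝ → ℝ × ℝ → ℝ), Spec U f (fun q => f q a) S e ∧
      ∀ p ∈ U, lap f f p a = ∑ l ∈ S, l * e l p := by
  classical
  obtain ⟨k, x, lam, hx, hsum, heig⟩ := hft
  set S : Finset ℝ := insert 0 (Finset.univ.image lam) with hS
  set e : ℝ → ℝ × ℝ → ℝ := fun l q => ∑ i ∈ Finset.univ.filter (fun i => lam i = l), x i q a with he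
  have hmap : ∀ i : Fin k, lam i ∈ S := fun i =>
    Finset.mem_insert_of_mem (Finset.mem_image_of_mem _ (Finset.mem_univ i))
  have hcoord : ∀ i, ContDiffOn ℝ ((⊤ : ℕ∞) : WithTop ℕ∞) (fun q => x i q a) U :=
    fun i => smooth_coord (hx i) a
  have hsm : ∀ l ∈ S, ContDiffOn ℝ ((⊤ : ℕ∞) : WithTop ℕ∞) (e l) U := by
    intro l _
    exact ContDiffOn.sum fun i _ => hcoord i
  have heigen : ∀ l ∈ S, ∀ p ∈ U, lapS f (e l) p = l * e l p := by
    intro l _ p hp
    have h1 := lapS_sum h.isOpen h.smooth h.immersion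
      (Finset.univ.filter (fun i : Fin k => lam i = l)) (fun _ => (1 : ℝ)) (fun i q => x i q a)
      (fun i _ => hcoord i) hp
    have h2 : (fun q => ∑ i ∈ Finset.univ.filter (fun i : Fin k => lam i = l), (1 : ℝ) * x i q a) =
        e l := by
      funext q
      simp only [he, one_mul]
    rw [h2] at h1
    rw [h1]
    simp only [he, one_mul]
    rw [Finset.mul_sum]
    refine Finset.sum_congr rfl fun i hi => ?_
    rw [← lap_apply h.isOpen h.smooth h.immersion (hx i) hp a, heig i p hp, PiLp.smul_apply,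
      smul_eq_mul, (Finset.mem_filter.1 hi).2]
  have hsumU : ∀ p ∈ U, f p a = ∑ l ∈ S, e l p := by
    intro p hp
    rw [hsum p hp]
    have h1 : (∑ i, x i p) a = ∑ i, x i p a := by
      simp
    rw [h1, ← Finset.sum_fiberwise_of_maps_to (fun i _ => hmap i) (fun i => x i p a)]
  refine ⟨S, e, ⟨⟨0, Finset.mem_insert_self _ _⟩, hsm, heigen, hsumU⟩, ?_⟩
  intro p hp
  rw [lap_apply h.isOpen h.smooth h.immersion h.smooth hp a]
  have h1 := lapS_sum h.isOpen h.smooth h.immersion S (fun _ => (1 : ℝ)) e hsm hp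
  have h2 : lapS f (fun q => f q a) p = lapS f (fun q => ∑ l ∈ S, (1 : ℝ) * e l q) p := by
    refine lapS_congr h.isOpen (fun q hq => ?_) hp
    simp only [one_mul]
    exact hsumU q hq
  rw [h2, h1]
  refine Finset.sum_congr rfl fun l hl => ?_
  rw [one_mul, heigen l hl p hp]

private lemma ev_cont {U : Set (ℝ × ℝ)} {f : ℝ × ℝ → E3} {F : Pl} (h : IsPatch U f F) (G : Pl) :
    ContinuousOn (ev f G) U := by
  have h1 : ContinuousOn (fun p : ℝ × ℝ => (fun i : Fin 3 => f p i)) U :=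
    continuousOn_pi.2 fun i => (smooth_coord h.smooth i).continuousOn
  exact (MvPolynomial.continuous_eval G).comp_continuousOn h1

private lemma open_ne {U : Set (ℝ × ℝ)} {f : ℝ × ℝ → E3} {F : Pl} (h : IsPatch U f F) (G : Pl) :
    IsOpen {q | q ∈ U ∧ ev f G q ≠ 0} := by
  have h1 := (ev_cont h G).isOpen_inter_preimage h.isOpen (isOpen_compl_singleton (x := (0 : ℝ)))
  exact h1

theorem iter_rep {U : Set (ℝ × ℝ)} {f : ℝ × ℝ → E3} {F : Pl} (h : IsPatch U f F) (a : Fin 3)
    {S : Finset ℝ} {e : ℝ → ℝ × ℝ → ℝ} (hS : Spec U f (fun q => f q a) S e) (j : ℕ) {p : ℝ × ℝ}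
    (hp : p ∈ U) (hw : ev f (wP F) p ≠ 0) :
    ∑ l ∈ S, l ^ (j + 1) * e l p = ev f (Gs F a j) p / ev f (wP F) p ^ (3 * j + 2) := by
  have hstep : ∀ (i : ℕ) {q : ℝ × ℝ}, q ∈ U →
      ∑ l ∈ S, l ^ (i + 1) * e l q = lapS f (fun q => ∑ l ∈ S, l ^ i * e l q) q := by
    intro i q hq
    rw [lapS_sum h.isOpen h.smooth h.immersion S (fun l => l ^ i) e hS.smooth hq]
    refine Finset.sum_congr rfl fun l hl => ?_
    rw [hS.eigen l hl q hq, pow_succ]
    ring
  have key : ∀ (j : ℕ) (p : ℝ × ℝ), p ∈ U → ev f (wP F) p ≠ 0 →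
      ∑ l ∈ S, l ^ (j + 1) * e l p = ev f (Gs F a j) p / ev f (wP F) p ^ (3 * j + 2) := by
    intro j
    induction j with
    | zero =>
      intro p hp hw
      rw [hstep 0 hp]
      have h1 : lapS f (fun q => ∑ l ∈ S, l ^ 0 * e l q) p =
          lapS f (fun q => ev f (X a) q / ev f (wP F) q ^ 0) p := by
        refine lapS_congr h.isOpen (fun q hq => ?_) hp
        simp only [pow_zero, one_mul, div_one]
        rw [← hS.sum q hq]
        simp [ev]
      rw [h1, lapS_w h (X a) 0 hp hw]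
      have h2 : ev f (Lw F (X a) 0) p = -(ev f (wP F) p * ev f (Gs F a 0) p) := by
        simp only [ev, Lw, Gs, map_sum, map_sub, map_mul, map_pow, map_neg, map_add, eval_C,
          Nat.cast_zero, mul_zero, zero_mul, sub_zero, add_zero]
        rw [mul_neg, neg_neg, Finset.mul_sum]
        refine Finset.sum_congr rfl fun k _ => ?_
        ring
      rw [h2]
      field_simp
      ring
    | succ j ih =>
      intro p hp hw
      rw [hstep (j + 1) hp]
      have h1 : lapS f (fun q => ∑ l ∈ S, l ^ (j + 1) * e l q) p =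
          lapS f (fun q => ev f (Gs F a j) q / ev f (wP F) q ^ (3 * j + 2)) p :=
        lapS_congr (open_ne h (wP F)) (fun q hq => ih q hq.1 hq.2) ⟨hp, hw⟩
      rw [h1, lapS_w h (Gs F a j) (3 * j + 2) hp hw]
      have h2 : ev f (Gs F a (j + 1)) p = -ev f (Lw F (Gs F a j) (3 * j + 2)) p := by
        simp only [ev, Gs, map_neg]
      rw [h2]
      congr 2
  exact key j p hp hw

theorem eig_rep {U : Set (ℝ × ℝ)} {f : ℝ × ℝ → E3} {F : Pl} (h : IsPatch U f F) (a : Fin 3)
    {S : Finset ℝ} {e : ℝ → ℝ × ℝ → ℝ} (hS : Spec U f (fun q => f q a) S e) {l : ℝ} (hl : l ∈ S) :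
    ∃ (G : Pl) (m : ℕ), ∀ p ∈ U, ev f (wP F) p ≠ 0 → e l p = ev f G p / ev f (wP F) p ^ m := by
  classical
  set Q : Polynomial ℝ := Lagrange.basis S id l with hQ
  set N : ℕ := Q.natDegree with hN
  have hinj : Set.InjOn (id : ℝ → ℝ) (S : Set ℝ) := Function.injective_id.injOn
  have hQ1 : Q.eval l = 1 := Lagrange.eval_basis_self hinj hl
  have hQ0 : ∀ l' ∈ S, l' ≠ l → Q.eval l' = 0 := by
    intro l' hl' hne
    exact Lagrange.eval_basis_of_ne (v := id) (Ne.symm hne) hl'
  -- the representation of e l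
  have hrep : ∀ p, e l p = Q.coeff 0 * ∑ l' ∈ S, e l' p +
      ∑ j ∈ Finset.range N, Q.coeff (j + 1) * ∑ l' ∈ S, l' ^ (j + 1) * e l' p := by
    intro p
    have h1 : ∑ l' ∈ S, Q.eval l' * e l' p = e l p := by
      rw [Finset.sum_eq_single l]
      · rw [hQ1, one_mul]
      · intro b hb hne
        rw [hQ0 b hb hne, zero_mul]
      · intro hn
        exact absurd hl hn
    rw [← h1]
    have h2 : ∀ l' : ℝ, Q.eval l' = Q.coeff 0 + ∑ j ∈ Finset.range N, Q.coeff (j + 1) * l' ^ (j + 1) := by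
      intro l'
      rw [Polynomial.eval_eq_sum_range, ← hN, Finset.sum_range_succ', pow_zero, mul_one, add_comm]
    calc ∑ l' ∈ S, Q.eval l' * e l' p
        = ∑ l' ∈ S, (Q.coeff 0 * e l' p +
            ∑ j ∈ Finset.range N, Q.coeff (j + 1) * (l' ^ (j + 1) * e l' p)) := by
          refine Finset.sum_congr rfl fun l' _ => ?_
          rw [h2, add_mul, Finset.sum_mul]
          congr 1
          refine Finset.sum_congr rfl fun j _ => ?_
          ring
      _ = _ := by
          rw [Finset.sum_add_distrib, Finset.mul_sum, Finset.sum_comm]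
          congr 1
          refine Finset.sum_congr rfl fun j _ => ?_
          rw [Finset.mul_sum]
  refine ⟨C (Q.coeff 0) * X a * wP F ^ (3 * N + 2) +
    ∑ j ∈ Finset.range N, C (Q.coeff (j + 1)) * Gs F a j * wP F ^ (3 * (N - j)), 3 * N + 2, ?_⟩
  intro p hp hw
  rw [hrep p, ← hS.sum p hp]
  have h1 : ∀ j ∈ Finset.range N, Q.coeff (j + 1) * ∑ l' ∈ S, l' ^ (j + 1) * e l' p =
      Q.coeff (j + 1) * (ev f (Gs F a j) p / ev f (wP F) p ^ (3 * j + 2)) := by
    intro j _
    rw [iter_rep h a hS j hp hw]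
  rw [Finset.sum_congr rfl h1]
  have hX : ev f (X a) p = f p a := by simp [ev]
  have hev : ev f (C (Q.coeff 0) * X a * wP F ^ (3 * N + 2) +
      ∑ j ∈ Finset.range N, C (Q.coeff (j + 1)) * Gs F a j * wP F ^ (3 * (N - j))) p =
      Q.coeff 0 * f p a * ev f (wP F) p ^ (3 * N + 2) +
      ∑ j ∈ Finset.range N, Q.coeff (j + 1) * ev f (Gs F a j) p * ev f (wP F) p ^ (3 * (N - j)) := by
    simp only [ev, map_add, map_sum, map_mul, map_pow, eval_C, eval_X]
  rw [hev, add_div, Finset.sum_div, mul_div_assoc, div_self (pow_ne_zero _ hw), mul_one]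
  congr 1
  refine Finset.sum_congr rfl fun j hj => ?_
  have hjN : j < N := Finset.mem_range.1 hj
  have h3 : 3 * N + 2 = (3 * j + 2) + 3 * (N - j) := by omega
  rw [h3, pow_add _ (3 * j + 2) (3 * (N - j)), mul_div_mul_right _ _ (pow_ne_zero _ hw), mul_div_assoc]

end Pool.Agent.Helper60.AS
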