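import Pool.Agent.Helper60.AS.Tan

/-!
# AS-RAT: the Laplacian of a rational function restricted to the surface

Apply `lapS_tan` on `O = {p ∈ U | ev f (wP F) p ≠ 0, ev f V p ≠ 0}` (open) to `ψ = ev f G / ev f V`,
`A k = ev f (GG F G V k) / ev f V ^ 2`,
`B k = ev f (V * T F k (GG F G V k) - 2 * GG F G V k * T F k V) / ev f V ^ 3`; the hypotheses follow
from `tan_ev` and the quotient rule. For `lapS_w` use `V = wP F ^ m` (or directly `A k =
ev (w T G - m G T w) / w^(m+1)` etc.).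
-/

set_option autoImplicit false

namespace Pool.Agent.Helper60.AS

open MvPolynomial

private lemma h35_diff {U : Set (ℝ × ℝ)} (hU : IsOpen U) {φ : ℝ × ℝ → ℝ}
    (hφ : ContDiffOn ℝ ((⊤ : ℕ∞) : WithTop ℕ∞) φ U) {p : ℝ × ℝ} (hp : p ∈ U) :
    DifferentiableAt ℝ φ p :=
  (hφ.contDiffAt (hU.mem_nhds hp)).differentiableAt (by simp)

private lemma h35_fd_div {a b : ℝ × ℝ → ℝ} {p : ℝ × ℝ} (ha : DifferentiableAt ℝ a p)
    (hb : DifferentiableAt ℝ b p) (h0 : b p ≠ 0) (v : ℝ × ℝ) :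
    fderiv ℝ (fun q => a q / b q) p v =
      (b p * fderiv ℝ a p v - a p * fderiv ℝ b p v) / b p ^ 2 := by
  have hd : DifferentiableAt ℝ (fun q => a q / b q) p := by
    simp only [div_eq_mul_inv]
    exact ha.mul (hb.fun_inv h0)
  have hmul : HasFDerivAt (fun q => (a q / b q) * b q)
      ((a p / b p) • fderiv ℝ b p + b p • fderiv ℝ (fun q => a q / b q) p) p :=
    hd.hasFDerivAt.mul hb.hasFDerivAt
  have hev : (fun q => (a q / b q) * b q) =ᶠ[nhds p] a := by
    have hc : ContinuousAt b p := hb.continuousAt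
    filter_upwards [hc.eventually_ne h0] with q hq
    exact div_mul_cancel₀ _ hq
  have h1 : fderiv ℝ (fun q => (a q / b q) * b q) p = fderiv ℝ a p := hev.fderiv_eq
  rw [hmul.fderiv] at h1
  have h2 : (a p / b p) * fderiv ℝ b p v + b p * fderiv ℝ (fun q => a q / b q) p v =
      fderiv ℝ a p v := by
    have := congrArg (fun L : (ℝ × ℝ) →L[ℝ] ℝ => L v) h1
    simpa using this
  rw [← h2]
  field_simp
  ring

private lemma h35_D1_div {a b : ℝ × ℝ → ℝ} {p : ℝ × ℝ} (ha : DifferentiableAt ℝ a p)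
    (hb : DifferentiableAt ℝ b p) (h0 : b p ≠ 0) :
    D1 (fun q => a q / b q) p = (b p * D1 a p - a p * D1 b p) / b p ^ 2 :=
  h35_fd_div ha hb h0 _

private lemma h35_D2_div {a b : ℝ × ℝ → ℝ} {p : ℝ × ℝ} (ha : DifferentiableAt ℝ a p)
    (hb : DifferentiableAt ℝ b p) (h0 : b p ≠ 0) :
    D2 (fun q => a q / b q) p = (b p * D2 a p - a p * D2 b p) / b p ^ 2 :=
  h35_fd_div ha hb h0 _

private lemma h35_ev_GG (f : ℝ × ℝ → E3) (F P Q : Pl) (k : Fin 3) (p : ℝ × ℝ) :
    ev f (GG F P Q k) p = ev f Q p * ev f (T F k P) p - ev f P p * ev f (T F k Q) p := by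
  simp [ev, GG]

/-- Tangential derivative of a quotient. -/
private lemma h35_tan_quot {U : Set (ℝ × ℝ)} {f : ℝ × ℝ → E3} {F : Pl} (h : IsPatch U f F)
    {p : ℝ × ℝ} (hp : p ∈ U) (hw : ev f (wP F) p ≠ 0) (P Q : Pl) (hQ : ev f Q p ≠ 0)
    (k : Fin 3) :
    kap f F p * (ev f (GG F P Q k) p / ev f Q p ^ 2) =
      d2 f p k * D1 (fun q => ev f P q / ev f Q q) p -
        d1 f p k * D2 (fun q => ev f P q / ev f Q q) p := by
  have dP := h35_diff h.isOpen (smooth_ev h.smooth P) hp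
  have dQ := h35_diff h.isOpen (smooth_ev h.smooth Q) hp
  rw [h35_D1_div dP dQ hQ, h35_D2_div dP dQ hQ, h35_ev_GG]
  have tP := tan_ev h hp hw P k
  have tQ := tan_ev h hp hw Q k
  field_simp
  linear_combination (ev f Q p) * tP - (ev f P p) * tQ

private lemma h35_T_mul (F P Q : Pl) (k : Fin 3) :
    T F k (P * Q) = P * T F k Q + Q * T F k P := by
  unfold T
  rw [pderiv_mul, pderiv_mul]
  ring

private lemma h35_ev_T_mul (f : ℝ × ℝ → E3) (F P Q : Pl) (k : Fin 3) (p : ℝ × ℝ) :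
    ev f (T F k (P * Q)) p = ev f P p * ev f (T F k Q) p + ev f Q p * ev f (T F k P) p := by
  rw [h35_T_mul]
  simp [ev]

private lemma h35_open {U : Set (ℝ × ℝ)} {f : ℝ × ℝ → E3} {F : Pl} (h : IsPatch U f F) (V : Pl) :
    IsOpen {p : ℝ × ℝ | p ∈ U ∧ ev f (wP F) p ≠ 0 ∧ ev f V p ≠ 0} := by
  rw [isOpen_iff_mem_nhds]
  rintro p ⟨hp, hw, hV⟩
  have c1 := (h35_diff h.isOpen (smooth_ev h.smooth (wP F)) hp).continuousAt
  have c2 := (h35_diff h.isOpen (smooth_ev h.smooth V) hp).continuousAt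
  filter_upwards [h.isOpen.mem_nhds hp, c1.eventually_ne hw, c2.eventually_ne hV] with q a b c
  exact ⟨a, b, c⟩

theorem lapS_ratio {U : Set (ℝ × ℝ)} {f : ℝ × ℝ → E3} {F : Pl} (h : IsPatch U f F) (G V : Pl)
    {p : ℝ × ℝ} (hp : p ∈ U) (hw : ev f (wP F) p ≠ 0) (hV : ev f V p ≠ 0) :
    lapS f (fun q => ev f G q / ev f V q) p =
      -ev f (Num F G V) p / (2 * ev f (wP F) p ^ 2 * ev f V p ^ 3) := by
  set O : Set (ℝ × ℝ) := {p : ℝ × ℝ | p ∈ U ∧ ev f (wP F) p ≠ 0 ∧ ev f V p ≠ 0} with hOdef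
  have hO : IsOpen O := h35_open h V
  have hOU : O ⊆ U := fun q hq => hq.1
  have hpO : p ∈ O := ⟨hp, hw, hV⟩
  have hVV : ∀ q ∈ O, ev f (V * V) q ≠ 0 := by
    intro q hq
    have : ev f (V * V) q = ev f V q * ev f V q := by simp [ev]
    rw [this]
    exact mul_ne_zero hq.2.2 hq.2.2
  have e1 : ∀ q, ev f (V * V) q = ev f V q ^ 2 := by
    intro q
    simp [ev, sq]
  have key := lapS_tan h hO hOU (fun q hq => hq.2.1)
    (ψ := fun q => ev f G q / ev f V q)
    (A := fun k q => ev f (GG F G V k) q / ev f (V * V) q)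
    (B := fun k q => ev f (GG F (GG F G V k) (V * V) k) q / ev f (V * V) q ^ 2)
    (((smooth_ev h.smooth G).mono hOU).div ((smooth_ev h.smooth V).mono hOU)
      (fun q hq => hq.2.2))
    (fun k => ((smooth_ev h.smooth _).mono hOU).div ((smooth_ev h.smooth _).mono hOU) hVV)
    (by
      intro q hq k
      have := h35_tan_quot h (hOU hq) hq.2.1 G V hq.2.2 k
      rw [← this]
      simp only [e1])
    (by
      intro q hq k
      exact h35_tan_quot h (hOU hq) hq.2.1 (GG F G V k) (V * V) (hVV q hq) k)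
    hpO
  rw [key]
  have hN : ev f (Num F G V) p = ∑ k, (2 * ev f (wP F) p *
      (ev f V p * ev f (T F k (GG F G V k)) p - 2 * ev f (GG F G V k) p * ev f (T F k V) p)
      - ev f V p * ev f (T F k (wP F)) p * ev f (GG F G V k) p) := by
    simp [ev, Num]
  rw [hN]
  simp only [h35_ev_GG f F (GG F G V _) (V * V), h35_ev_T_mul, e1, Fin.sum_univ_three]
  field_simp
  ring

private lemma h35_ev_pow (f : ℝ × ℝ → E3) (P : Pl) (m : ℕ) (p : ℝ × ℝ) :
    ev f (P ^ m) p = ev f P p ^ m := by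
  simp [ev]

private lemma h35_T_pow (F P : Pl) (k : Fin 3) (m : ℕ) :
    P * T F k (P ^ m) = C (m : ℝ) * P ^ m * T F k P := by
  unfold T
  rw [pderiv_pow, pderiv_pow]
  rcases m with _ | m
  · simp
  · rw [Nat.add_sub_cancel, pow_succ]
    rw [map_natCast]
    ring

private lemma h35_ev_T_pow (f : ℝ × ℝ → E3) (F P : Pl) (k : Fin 3) (m : ℕ) (p : ℝ × ℝ)
    (h0 : ev f P p ≠ 0) :
    ev f (T F k (P ^ m)) p = (m : ℝ) * ev f P p ^ m * ev f (T F k P) p / ev f P p := by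
  have h1 := congrArg (fun Q => ev f Q p) (h35_T_pow F P k m)
  have h2 : ev f P p * ev f (T F k (P ^ m)) p = (m : ℝ) * ev f P p ^ m * ev f (T F k P) p := by
    simpa [ev] using h1
  rw [eq_div_iff h0, ← h2]
  ring

private lemma h35_T_C (F : Pl) (k : Fin 3) (a : ℝ) (P : Pl) :
    T F k (C a * P) = C a * T F k P := by
  unfold T
  rw [pderiv_C_mul, pderiv_C_mul]
  ring

private lemma h35_ev_TT_pow (f : ℝ × ℝ → E3) (F P : Pl) (k : Fin 3) (m : ℕ) (p : ℝ × ℝ)
    (h0 : ev f P p ≠ 0) :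
    ev f (T F k (T F k (P ^ m))) p =
      (m : ℝ) * ev f P p ^ m * ev f (T F k (T F k P)) p / ev f P p +
        (m : ℝ) * ((m : ℝ) - 1) * ev f P p ^ m * ev f (T F k P) p ^ 2 / ev f P p ^ 2 := by
  have h1 := congrArg (fun Q => ev f (T F k Q) p) (h35_T_pow F P k m)
  have h3 : T F k (C (m : ℝ) * P ^ m * T F k P) = C (m : ℝ) * (P ^ m * T F k (T F k P) +
      T F k P * T F k (P ^ m)) := by
    rw [mul_assoc, h35_T_C, h35_T_mul]
  have h2 : ev f P p * ev f (T F k (T F k (P ^ m))) p + ev f (T F k (P ^ m)) p * ev f (T F k P) p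
      = (m : ℝ) * (ev f P p ^ m * ev f (T F k (T F k P)) p +
        ev f (T F k P) p * ev f (T F k (P ^ m)) p) := by
    rw [h3, h35_T_mul] at h1
    have h4 : ev f (P * T F k (T F k (P ^ m)) + T F k (P ^ m) * T F k P) p =
        ev f P p * ev f (T F k (T F k (P ^ m))) p + ev f (T F k (P ^ m)) p * ev f (T F k P) p := by
      simp [ev]
    have h5 : ev f (C (m : ℝ) * (P ^ m * T F k (T F k P) + T F k P * T F k (P ^ m))) p =
        (m : ℝ) * (ev f P p ^ m * ev f (T F k (T F k P)) p +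
        ev f (T F k P) p * ev f (T F k (P ^ m)) p) := by
      simp [ev]
    rw [← h4, ← h5]
    exact h1
  rw [h35_ev_T_pow f F P k m p h0] at h2
  have h6 : ev f P p * ev f (T F k (T F k (P ^ m))) p =
      (m : ℝ) * (ev f P p ^ m * ev f (T F k (T F k P)) p +
        ev f (T F k P) p * ((m : ℝ) * ev f P p ^ m * ev f (T F k P) p / ev f P p)) -
      (m : ℝ) * ev f P p ^ m * ev f (T F k P) p / ev f P p * ev f (T F k P) p := by
    linear_combination h2
  have h7 : ev f (T F k (T F k (P ^ m))) p = (ev f P p * ev f (T F k (T F k (P ^ m))) p) /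
      ev f P p := by
    field_simp
  rw [h7, h6]
  field_simp
  ring

private lemma h35_ev_T_GG (f : ℝ × ℝ → E3) (F G V : Pl) (k : Fin 3) (p : ℝ × ℝ) :
    ev f (T F k (GG F G V k)) p = ev f V p * ev f (T F k (T F k G)) p -
      ev f G p * ev f (T F k (T F k V)) p := by
  have h1 : T F k (GG F G V k) = V * T F k (T F k G) - G * T F k (T F k V) := by
    have h2 : T F k (GG F G V k) = T F k (V * T F k G) - T F k (G * T F k V) := by
      unfold GG
      generalize V * T F k G = a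
      generalize G * T F k V = b
      unfold T
      rw [map_sub, map_sub]
      ring
    rw [h2, h35_T_mul, h35_T_mul]
    ring
  rw [h1]
  simp [ev]

theorem lapS_w {U : Set (ℝ × ℝ)} {f : ℝ × ℝ → E3} {F : Pl} (h : IsPatch U f F) (G : Pl) (m : ℕ)
    {p : ℝ × ℝ} (hp : p ∈ U) (hw : ev f (wP F) p ≠ 0) :
    lapS f (fun q => ev f G q / ev f (wP F) q ^ m) p =
      -ev f (Lw F G m) p / ev f (wP F) p ^ (m + 3) := by
  have e1 : (fun q => ev f G q / ev f (wP F) q ^ m) = fun q => ev f G q / ev f (wP F ^ m) q := by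
    funext q
    rw [h35_ev_pow]
  have hV : ev f (wP F ^ m) p ≠ 0 := by
    rw [h35_ev_pow]
    exact pow_ne_zero _ hw
  rw [e1, lapS_ratio h G (wP F ^ m) hp hw hV]
  have hN : ev f (Num F G (wP F ^ m)) p = ∑ k, (2 * ev f (wP F) p *
      (ev f (wP F ^ m) p * ev f (T F k (GG F G (wP F ^ m) k)) p -
        2 * ev f (GG F G (wP F ^ m) k) p * ev f (T F k (wP F ^ m)) p)
      - ev f (wP F ^ m) p * ev f (T F k (wP F)) p * ev f (GG F G (wP F ^ m) k) p) := by
    simp [ev, Num]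
  have hL : ev f (Lw F G m) p = ∑ k, (ev f (wP F) p ^ 2 * ev f (T F k (T F k G)) p
      - (2 * (m : ℝ)) * ev f (wP F) p * ev f (T F k (wP F)) p * ev f (T F k G) p
      - (m : ℝ) * ev f (wP F) p * ev f G p * ev f (T F k (T F k (wP F))) p
      + ((m : ℝ) * (m + 1)) * ev f G p * ev f (T F k (wP F)) p ^ 2
      - (1 / 2 : ℝ) * ev f (T F k (wP F)) p * (ev f (wP F) p * ev f (T F k G) p -
        (m : ℝ) * ev f G p * ev f (T F k (wP F)) p)) := by
    simp [ev, Lw]
  rw [hN, hL]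
  simp only [h35_ev_T_GG, h35_ev_GG, h35_ev_TT_pow f F (wP F) _ m p hw,
    h35_ev_T_pow f F (wP F) _ m p hw, h35_ev_pow, Fin.sum_univ_three]
  rw [pow_add]
  have hWm : ev f (wP F) p ^ m ≠ 0 := pow_ne_zero _ hw
  generalize ev f (wP F) p ^ m = Wm at hWm ⊢
  generalize ev f (wP F) p = W at hw ⊢
  field_simp
  ring

end Pool.Agent.Helper60.AS
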