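import Pool.Agent.Helper60.AS.Final

/-!
# Invariance under rigid rotations
-/

set_option autoImplicit false

namespace Pool.Agent.Helper60.AS

open MvPolynomial

theorem d1_rot (A : E3 ≃ₗᵢ[ℝ] E3) (φ : ℝ × ℝ → E3) (p : ℝ × ℝ) :
    d1 (fun q => A (φ q)) p = A (d1 φ p) := by
  have h := (A.toContinuousLinearEquiv).comp_fderiv (f := φ) (x := p)
  have h2 : fderiv ℝ (fun q => A (φ q)) p = (A.toContinuousLinearEquiv : E3 →L[ℝ] E3).comp
      (fderiv ℝ φ p) := h
  rw [d1, d1, h2]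
  rfl

theorem d2_rot (A : E3 ≃ₗᵢ[ℝ] E3) (φ : ℝ × ℝ → E3) (p : ℝ × ℝ) :
    d2 (fun q => A (φ q)) p = A (d2 φ p) := by
  have h := (A.toContinuousLinearEquiv).comp_fderiv (f := φ) (x := p)
  have h2 : fderiv ℝ (fun q => A (φ q)) p = (A.toContinuousLinearEquiv : E3 →L[ℝ] E3).comp
      (fderiv ℝ φ p) := h
  rw [d2, d2, h2]
  rfl

theorem cE_rot (A : E3 ≃ₗᵢ[ℝ] E3) (f : ℝ × ℝ → E3) : cE (fun q => A (f q)) = cE f := by
  funext p
  simp only [cE, d1_rot, LinearIsometryEquiv.inner_map_map]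

theorem cF_rot (A : E3 ≃ₗᵢ[ℝ] E3) (f : ℝ × ℝ → E3) : cF (fun q => A (f q)) = cF f := by
  funext p
  simp only [cF, d1_rot, d2_rot, LinearIsometryEquiv.inner_map_map]

theorem cG_rot (A : E3 ≃ₗᵢ[ℝ] E3) (f : ℝ × ℝ → E3) : cG (fun q => A (f q)) = cG f := by
  funext p
  simp only [cG, d2_rot, LinearIsometryEquiv.inner_map_map]

theorem area_rot (A : E3 ≃ₗᵢ[ℝ] E3) (f : ℝ × ℝ → E3) : area (fun q => A (f q)) = area f := by
  funext p
  simp only [area, cE_rot, cF_rot, cG_rot]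

theorem lap_rot (A : E3 ≃ₗᵢ[ℝ] E3) (f φ : ℝ × ℝ → E3) (p : ℝ × ℝ) :
    lap (fun q => A (f q)) (fun q => A (φ q)) p = A (lap f φ p) := by
  have e1 : (fun q => (area f q)⁻¹ • (cG f q • A (d1 φ q) - cF f q • A (d2 φ q))) =
      fun q => A ((area f q)⁻¹ • (cG f q • d1 φ q - cF f q • d2 φ q)) := by
    funext q
    simp
  have e2 : (fun q => (area f q)⁻¹ • (cE f q • A (d2 φ q) - cF f q • A (d1 φ q))) =
      fun q => A ((area f q)⁻¹ • (cE f q • d2 φ q - cF f q • d1 φ q)) := by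
    funext q
    simp
  simp only [lap, area_rot, cE_rot, cF_rot, cG_rot, d1_rot, d2_rot]
  rw [e1, e2, d1_rot, d2_rot]
  simp

theorem minimal_of_patch_rot {U : Set (ℝ × ℝ)} {f : ℝ × ℝ → E3} {F : Pl} (A : E3 ≃ₗᵢ[ℝ] E3)
    (hU : IsOpen U) (hf : ContDiffOn ℝ ((⊤ : ℕ∞) : WithTop ℕ∞) f U)
    (himm : ∀ p ∈ U, LinearIndependent ℝ ![d1 f p, d2 f p]) (hF : Irreducible F)
    (hz : ∀ p ∈ U, MvPolynomial.eval (fun i => A (f p) i) F = 0)
    (hcond : RegularAtInfinity F ∨ TransversalIsotropic F) (hft : FiniteType f U) :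
    ∀ p ∈ U, lap f f p = 0 := by
  intro p hp
  have hpatch : IsPatch U (fun q => A (f q)) F := by
    refine ⟨hU, ?_, ?_, hz⟩
    · exact A.toContinuousLinearEquiv.contDiff.comp_contDiffOn hf
    · intro p hp
      have h1 := (himm p hp).map' (A.toLinearEquiv : E3 →ₗ[ℝ] E3) A.toLinearEquiv.ker
      have e : ![d1 (fun q => A (f q)) p, d2 (fun q => A (f q)) p] =
          (A.toLinearEquiv : E3 →ₗ[ℝ] E3) ∘ ![d1 f p, d2 f p] := by
        funext i
        fin_cases i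
        · simp [d1_rot]
        · simp [d2_rot]
      rw [e]
      exact h1
  have hft' : FiniteType (fun q => A (f q)) U := by
    obtain ⟨k, x, lam, hx, hs, he⟩ := hft
    refine ⟨k, fun i q => A (x i q), lam, ?_, ?_, ?_⟩
    · intro i
      exact A.toContinuousLinearEquiv.contDiff.comp_contDiffOn (hx i)
    · intro q hq
      simp only [hs q hq, map_sum]
    · intro i q hq
      rw [lap_rot, he i q hq, map_smul]
  have h := minimal_of_patch hpatch hF hcond hft' p hp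
  rw [lap_rot] at h
  exact (map_eq_zero_iff A A.injective).mp h

end Pool.Agent.Helper60.AS
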