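import Pool.Agent.Helper60.AS.Comp

/-!
# AS-TAN: tangential derivatives

Write `N_i = ev f (pderiv i F)`, `w = |N|² = ev f (wP F)`, `f₁ = d1 f`, `f₂ = d2 f`. On `U` we have
`N · f₁ = N · f₂ = 0` (differentiate `F ∘ f = 0`), so where `w ≠ 0`: `f₁ × f₂ = kap N` with
`kap = ((f₁ × f₂) · N) / w`, and `area² = |f₁ × f₂|² = kap² w` (Lagrange). For a scalar function `ψ`
a family `A k` with `kap * A k = f₂ k * D1 ψ - f₁ k * D2 ψ` is `T_k ψ` (in words: the tangential derivative). For `ψ = ev f G` it is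
`ev f (T F k G)`: `(f₁ × f₂) × g = f₂ (f₁ · g) - f₁ (f₂ · g)`, `g = grad G`, `D1 (ev f G) = g · f₁`.

Laplacian. With `τ = kap / area` (smooth, `τ² = 1 / w`):
`(1/area) (cG D1 ψ - cF D2 ψ) = (1/area) f₂ · (f₂ D1 ψ - f₁ D2 ψ) = τ f₂ · A`,
`(1/area) (cE D2 ψ - cF D1 ψ) = - τ f₁ · A`, hence
`lapS f ψ = -(1/area) (D1 (τ f₂ · A) - D2 (τ f₁ · A))`
`= -(1/area) (D1 τ f₂ · A - D2 τ f₁ · A + τ ∑ (f₂ k D1 (A k) - f₁ k D2 (A k)))` (mixed second
derivatives of `f` are equal) and `D_i τ = - τ D_i w / (2 w)`; so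
`lapS f ψ = -τ² (∑ B k - (1/(2 w)) ∑ (T_k w) A k)`.
-/

set_option autoImplicit false

namespace Pool.Agent.Helper60.AS

open MvPolynomial

/-- The factor `kap` with `f₁ × f₂ = kap • N`. -/
noncomputable def kap (f : ℝ × ℝ → E3) (F : Pl) (p : ℝ × ℝ) : ℝ :=
  (∑ k : Fin 3, (d1 f p (k + 1) * d2 f p (k + 2) - d1 f p (k + 2) * d2 f p (k + 1)) *
    ev f (pderiv k F) p) / ev f (wP F) p

private lemma h24_diff {E : Type*} [NormedAddCommGroup E] [NormedSpace ℝ E] {U : Set (ℝ × ℝ)}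
    (hU : IsOpen U) {φ : ℝ × ℝ → E} (hφ : ContDiffOn ℝ ((⊤ : ℕ∞) : WithTop ℕ∞) φ U) {p : ℝ × ℝ}
    (hp : p ∈ U) : DifferentiableAt ℝ φ p :=
  (hφ.contDiffAt (hU.mem_nhds hp)).differentiableAt (by simp)

private lemma h24_fderiv_congr {O : Set (ℝ × ℝ)} (hO : IsOpen O) {ψ χ : ℝ × ℝ → ℝ}
    (h : ∀ q ∈ O, ψ q = χ q) {p : ℝ × ℝ} (hp : p ∈ O) : fderiv ℝ ψ p = fderiv ℝ χ p := by
  apply Filter.EventuallyEq.fderiv_eq
  filter_upwards [hO.mem_nhds hp] with q hq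
  exact h q hq

private lemma h24_D1_congr {O : Set (ℝ × ℝ)} (hO : IsOpen O) {ψ χ : ℝ × ℝ → ℝ}
    (h : ∀ q ∈ O, ψ q = χ q) {p : ℝ × ℝ} (hp : p ∈ O) : D1 ψ p = D1 χ p := by
  unfold D1
  rw [h24_fderiv_congr hO h hp]

private lemma h24_D2_congr {O : Set (ℝ × ℝ)} (hO : IsOpen O) {ψ χ : ℝ × ℝ → ℝ}
    (h : ∀ q ∈ O, ψ q = χ q) {p : ℝ × ℝ} (hp : p ∈ O) : D2 ψ p = D2 χ p := by
  unfold D2
  rw [h24_fderiv_congr hO h hp]

/-- The product rule. -/
private lemma h24_D1_mul {a b : ℝ × ℝ → ℝ} {p : ℝ × ℝ} (ha : DifferentiableAt ℝ a p)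
    (hb : DifferentiableAt ℝ b p) :
    D1 (fun q => a q * b q) p = a p * D1 b p + b p * D1 a p := by
  have h1 := ha.hasFDerivAt.mul hb.hasFDerivAt
  have h2 : HasFDerivAt (fun q => a q * b q) (a p • fderiv ℝ b p + b p • fderiv ℝ a p) p := h1
  unfold D1
  rw [h2.fderiv]
  rfl

private lemma h24_D2_mul {a b : ℝ × ℝ → ℝ} {p : ℝ × ℝ} (ha : DifferentiableAt ℝ a p)
    (hb : DifferentiableAt ℝ b p) :
    D2 (fun q => a q * b q) p = a p * D2 b p + b p * D2 a p := by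
  have h1 := ha.hasFDerivAt.mul hb.hasFDerivAt
  have h2 : HasFDerivAt (fun q => a q * b q) (a p • fderiv ℝ b p + b p • fderiv ℝ a p) p := h1
  unfold D2
  rw [h2.fderiv]
  rfl

private lemma h24_D1_sum (a b : Fin 3 → ℝ × ℝ → ℝ) {p : ℝ × ℝ}
    (ha : ∀ k, DifferentiableAt ℝ (a k) p) (hb : ∀ k, DifferentiableAt ℝ (b k) p) :
    D1 (fun q => ∑ k, a k q * b k q) p = ∑ k, (a k p * D1 (b k) p + b k p * D1 (a k) p) := by
  have h1 : HasFDerivAt (fun q => ∑ k, a k q * b k q)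
      (∑ k, (a k p • fderiv ℝ (b k) p + b k p • fderiv ℝ (a k) p)) p :=
    HasFDerivAt.fun_sum fun k _ => (ha k).hasFDerivAt.mul (hb k).hasFDerivAt
  unfold D1
  rw [h1.fderiv]
  simp

private lemma h24_D2_sum (a b : Fin 3 → ℝ × ℝ → ℝ) {p : ℝ × ℝ}
    (ha : ∀ k, DifferentiableAt ℝ (a k) p) (hb : ∀ k, DifferentiableAt ℝ (b k) p) :
    D2 (fun q => ∑ k, a k q * b k q) p = ∑ k, (a k p * D2 (b k) p + b k p * D2 (a k) p) := by
  have h1 : HasFDerivAt (fun q => ∑ k, a k q * b k q)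
      (∑ k, (a k p • fderiv ℝ (b k) p + b k p • fderiv ℝ (a k) p)) p :=
    HasFDerivAt.fun_sum fun k _ => (ha k).hasFDerivAt.mul (hb k).hasFDerivAt
  unfold D2
  rw [h1.fderiv]
  simp

private lemma h24_ev_C (f : ℝ × ℝ → E3) (a : ℝ) : ev f (C a) = fun _ => a := by
  funext p
  simp [ev]

private lemma h24_ev_add (f : ℝ × ℝ → E3) (P Q : Pl) :
    ev f (P + Q) = fun p => ev f P p + ev f Q p := by
  funext p
  simp [ev]

private lemma h24_ev_mulX (f : ℝ × ℝ → E3) (P : Pl) (j : Fin 3) :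
    ev f (P * X j) = fun p => ev f P p * f p j := by
  funext p
  simp [ev]

/-- Chain rule for polynomials. -/
theorem smooth_ev {U : Set (ℝ × ℝ)} {f : ℝ × ℝ → E3}
    (hf : ContDiffOn ℝ ((⊤ : ℕ∞) : WithTop ℕ∞) f U) (G : Pl) :
    ContDiffOn ℝ ((⊤ : ℕ∞) : WithTop ℕ∞) (ev f G) U := by
  induction G using MvPolynomial.induction_on with
  | C a =>
    rw [h24_ev_C]
    exact contDiffOn_const
  | add P Q hP hQ =>
    rw [h24_ev_add]
    exact hP.add hQ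
  | mul_X P j hP =>
    rw [h24_ev_mulX]
    exact hP.mul (smooth_coord hf j)

private lemma h24_hasF {f : ℝ × ℝ → E3} {p : ℝ × ℝ}
    (hd : ∀ j, DifferentiableAt ℝ (fun q => f q j) p) (G : Pl) :
    HasFDerivAt (ev f G) (∑ i, ev f (pderiv i G) p • fderiv ℝ (fun q => f q i) p) p := by
  induction G using MvPolynomial.induction_on with
  | C a =>
    rw [h24_ev_C]
    have h0 : (∑ i, ev f (pderiv i (C a)) p • fderiv ℝ (fun q => f q i) p) = 0 := by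
      refine Finset.sum_eq_zero fun i _ => ?_
      rw [pderiv_C]
      simp [ev]
    rw [h0]
    exact hasFDerivAt_const a p
  | add P Q hP hQ =>
    rw [h24_ev_add]
    refine (hP.add hQ).congr_fderiv ?_
    rw [← Finset.sum_add_distrib]
    refine Finset.sum_congr rfl fun i _ => ?_
    rw [map_add, h24_ev_add, add_smul]
  | mul_X P j hP =>
    rw [h24_ev_mulX]
    refine (hP.mul (hd j).hasFDerivAt).congr_fderiv ?_
    have h1 : ∀ i, ev f (pderiv i (P * X j)) p =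
        ev f (pderiv i P) p * f p j + (if i = j then ev f P p else 0) := by
      intro i
      rw [pderiv_mul, h24_ev_add]
      have h2 := congrFun (h24_ev_mulX f (pderiv i P) j) p
      simp only [h2]
      congr 1
      by_cases hij : i = j
      · subst hij
        rw [pderiv_X_self, mul_one, if_pos rfl]
      · rw [pderiv_X_of_ne (Ne.symm hij), mul_zero, if_neg hij]
        simp [ev]
    simp only [h1, add_smul, Finset.sum_add_distrib, ite_smul, zero_smul]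
    rw [Finset.sum_ite_eq' Finset.univ j (fun i => ev f P p • fderiv ℝ (fun q => f q i) p)]
    rw [if_pos (Finset.mem_univ j), add_comm, Finset.smul_sum]
    congr 1
    refine Finset.sum_congr rfl fun i _ => ?_
    rw [smul_smul, mul_comm]

theorem D1_ev {U : Set (ℝ × ℝ)} (hU : IsOpen U) {f : ℝ × ℝ → E3}
    (hf : ContDiffOn ℝ ((⊤ : ℕ∞) : WithTop ℕ∞) f U) (G : Pl) {p : ℝ × ℝ} (hp : p ∈ U) :
    D1 (ev f G) p = ∑ i, ev f (pderiv i G) p * d1 f p i := by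
  have h := h24_hasF (fun j => h24_diff hU (smooth_coord hf j) hp) G
  unfold D1
  rw [h.fderiv, sum_apply]
  refine Finset.sum_congr rfl fun i _ => ?_
  rw [d1_apply hU hf hp i]
  rfl

theorem D2_ev {U : Set (ℝ × ℝ)} (hU : IsOpen U) {f : ℝ × ℝ → E3}
    (hf : ContDiffOn ℝ ((⊤ : ℕ∞) : WithTop ℕ∞) f U) (G : Pl) {p : ℝ × ℝ} (hp : p ∈ U) :
    D2 (ev f G) p = ∑ i, ev f (pderiv i G) p * d2 f p i := by
  have h := h24_hasF (fun j => h24_diff hU (smooth_coord hf j) hp) G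
  unfold D2
  rw [h.fderiv, sum_apply]
  refine Finset.sum_congr rfl fun i _ => ?_
  rw [d2_apply hU hf hp i]
  rfl

private lemma h24_fin3 (k : Fin 3) : k = 0 ∨ k = 1 ∨ k = 2 := by
  revert k
  decide

private lemma h24_n11 : (1 : Fin 3) + 1 = 2 := rfl
private lemma h24_n12 : (1 : Fin 3) + 2 = 0 := rfl
private lemma h24_n21 : (2 : Fin 3) + 1 = 0 := rfl
private lemma h24_n22 : (2 : Fin 3) + 2 = 1 := rfl

private lemma h24_orth1 {U : Set (ℝ × ℝ)} {f : ℝ × ℝ → E3} {F : Pl} (h : IsPatch U f F)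
    {p : ℝ × ℝ} (hp : p ∈ U) : ∑ i, ev f (pderiv i F) p * d1 f p i = 0 := by
  rw [← D1_ev h.isOpen h.smooth F hp, h24_D1_congr h.isOpen (χ := fun _ => 0) h.zero hp]
  unfold D1
  simp

private lemma h24_orth2 {U : Set (ℝ × ℝ)} {f : ℝ × ℝ → E3} {F : Pl} (h : IsPatch U f F)
    {p : ℝ × ℝ} (hp : p ∈ U) : ∑ i, ev f (pderiv i F) p * d2 f p i = 0 := by
  rw [← D2_ev h.isOpen h.smooth F hp, h24_D2_congr h.isOpen (χ := fun _ => 0) h.zero hp]
  unfold D2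
  simp

private lemma h24_ev_w (f : ℝ × ℝ → E3) (F : Pl) (p : ℝ × ℝ) :
    ev f (wP F) p = ∑ i, ev f (pderiv i F) p ^ 2 := by
  simp [ev, wP]

private lemma h24_ev_T (f : ℝ × ℝ → E3) (F G : Pl) (k : Fin 3) (p : ℝ × ℝ) :
    ev f (T F k G) p = ev f (pderiv (k + 1) F) p * ev f (pderiv (k + 2) G) p -
      ev f (pderiv (k + 2) F) p * ev f (pderiv (k + 1) G) p := by
  simp [ev, T]

theorem kap_mul {U : Set (ℝ × ℝ)} {f : ℝ × ℝ → E3} {F : Pl} (h : IsPatch U f F) {p : ℝ × ℝ}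
    (hp : p ∈ U) (hw : ev f (wP F) p ≠ 0) (k : Fin 3) :
    kap f F p * ev f (pderiv k F) p =
      d1 f p (k + 1) * d2 f p (k + 2) - d1 f p (k + 2) * d2 f p (k + 1) := by
  have h1 := h24_orth1 h hp
  have h2 := h24_orth2 h hp
  have hw2 := h24_ev_w f F p
  unfold kap
  rw [div_mul_eq_mul_div, div_eq_iff hw]
  rw [hw2]
  simp only [Fin.sum_univ_three] at h1 h2 ⊢
  rcases h24_fin3 k with rfl | rfl | rfl
  · simp only [zero_add, h24_n11, h24_n12, h24_n21, h24_n22]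
    linear_combination (-(ev f (pderiv 1 F) p * d2 f p 2) + ev f (pderiv 2 F) p * d2 f p 1) * h1 +
      (ev f (pderiv 1 F) p * d1 f p 2 - ev f (pderiv 2 F) p * d1 f p 1) * h2
  · simp only [zero_add, h24_n11, h24_n12, h24_n21, h24_n22]
    linear_combination (-(ev f (pderiv 2 F) p * d2 f p 0) + ev f (pderiv 0 F) p * d2 f p 2) * h1 +
      (ev f (pderiv 2 F) p * d1 f p 0 - ev f (pderiv 0 F) p * d1 f p 2) * h2
  · simp only [zero_add, h24_n11, h24_n12, h24_n21, h24_n22]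
    linear_combination (-(ev f (pderiv 0 F) p * d2 f p 1) + ev f (pderiv 1 F) p * d2 f p 0) * h1 +
      (ev f (pderiv 0 F) p * d1 f p 1 - ev f (pderiv 1 F) p * d1 f p 0) * h2

private lemma h24_cE (f : ℝ × ℝ → E3) (p : ℝ × ℝ) : cE f p = ∑ k, d1 f p k * d1 f p k := by
  unfold cE
  rw [PiLp.inner_apply]
  rfl

private lemma h24_cF (f : ℝ × ℝ → E3) (p : ℝ × ℝ) : cF f p = ∑ k, d1 f p k * d2 f p k := by
  unfold cF
  rw [PiLp.inner_apply]
  refine Finset.sum_congr rfl fun k _ => ?_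
  exact mul_comm _ _

private lemma h24_cG (f : ℝ × ℝ → E3) (p : ℝ × ℝ) : cG f p = ∑ k, d2 f p k * d2 f p k := by
  unfold cG
  rw [PiLp.inner_apply]
  rfl

theorem kap_sq {U : Set (ℝ × ℝ)} {f : ℝ × ℝ → E3} {F : Pl} (h : IsPatch U f F) {p : ℝ × ℝ}
    (hp : p ∈ U) (hw : ev f (wP F) p ≠ 0) :
    kap f F p ^ 2 * ev f (wP F) p = area f p ^ 2 ∧ kap f F p ≠ 0 := by
  have h0 := kap_mul h hp hw 0
  have h1 := kap_mul h hp hw 1
  have h2 := kap_mul h hp hw 2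
  simp only [zero_add, h24_n11, h24_n12, h24_n21, h24_n22] at h0 h1 h2
  have ha := area_sq h.immersion hp
  have hpos := area_pos h.immersion hp
  have hmain : kap f F p ^ 2 * ev f (wP F) p = area f p ^ 2 := by
    rw [ha, h24_cE, h24_cF, h24_cG, h24_ev_w]
    simp only [Fin.sum_univ_three]
    linear_combination (kap f F p * ev f (pderiv 0 F) p +
        (d1 f p 1 * d2 f p 2 - d1 f p 2 * d2 f p 1)) * h0 +
      (kap f F p * ev f (pderiv 1 F) p + (d1 f p 2 * d2 f p 0 - d1 f p 0 * d2 f p 2)) * h1 +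
      (kap f F p * ev f (pderiv 2 F) p + (d1 f p 0 * d2 f p 1 - d1 f p 1 * d2 f p 0)) * h2
  refine ⟨hmain, fun h3 => ?_⟩
  rw [h3] at hmain
  have h4 : (0 : ℝ) < area f p ^ 2 := by positivity
  rw [← hmain] at h4
  simp at h4

/-- `T_k` computes the tangential derivatives. -/
theorem tan_ev {U : Set (ℝ × ℝ)} {f : ℝ × ℝ → E3} {F : Pl} (h : IsPatch U f F) {p : ℝ × ℝ}
    (hp : p ∈ U) (hw : ev f (wP F) p ≠ 0) (G : Pl) (k : Fin 3) :
    kap f F p * ev f (T F k G) p = d2 f p k * D1 (ev f G) p - d1 f p k * D2 (ev f G) p := by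
  have h0 := kap_mul h hp hw 0
  have h1 := kap_mul h hp hw 1
  have h2 := kap_mul h hp hw 2
  simp only [zero_add, h24_n11, h24_n12, h24_n21, h24_n22] at h0 h1 h2
  rw [D1_ev h.isOpen h.smooth G hp, D2_ev h.isOpen h.smooth G hp, h24_ev_T]
  simp only [Fin.sum_univ_three]
  rcases h24_fin3 k with rfl | rfl | rfl
  · simp only [zero_add]
    linear_combination (ev f (pderiv 2 G) p) * h1 - (ev f (pderiv 1 G) p) * h2
  · simp only [h24_n11, h24_n12]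
    linear_combination (ev f (pderiv 0 G) p) * h2 - (ev f (pderiv 2 G) p) * h0
  · simp only [h24_n21, h24_n22]
    linear_combination (ev f (pderiv 1 G) p) * h0 - (ev f (pderiv 0 G) p) * h1

private lemma h24_smooth_fd {E : Type*} [NormedAddCommGroup E] [NormedSpace ℝ E]
    {U : Set (ℝ × ℝ)} (hU : IsOpen U) {φ : ℝ × ℝ → E}
    (hφ : ContDiffOn ℝ ((⊤ : ℕ∞) : WithTop ℕ∞) φ U) (v : ℝ × ℝ) :
    ContDiffOn ℝ ((⊤ : ℕ∞) : WithTop ℕ∞) (fun q => fderiv ℝ φ q v) U :=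
  (hφ.fderiv_of_isOpen hU (m := ((⊤ : ℕ∞) : WithTop ℕ∞)) (by simp)).clm_apply contDiffOn_const

/-- Mixed second derivatives are equal. -/
private lemma h24_mixed {U : Set (ℝ × ℝ)} (hU : IsOpen U) {φ : ℝ × ℝ → ℝ}
    (hφ : ContDiffOn ℝ ((⊤ : ℕ∞) : WithTop ℕ∞) φ U) {p : ℝ × ℝ} (hp : p ∈ U) :
    D1 (D2 φ) p = D2 (D1 φ) p := by
  have hc : ContDiffAt ℝ ((⊤ : ℕ∞) : WithTop ℕ∞) φ p := hφ.contDiffAt (hU.mem_nhds hp)
  have hsym : IsSymmSndFDerivAt ℝ φ p := by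
    refine hc.isSymmSndFDerivAt ?_
    rw [minSmoothness_of_isRCLikeNormedField]
    have h2 : (((2 : ℕ∞)) : WithTop ℕ∞) ≤ ((⊤ : ℕ∞) : WithTop ℕ∞) :=
      WithTop.coe_le_coe.2 le_top
    exact h2
  have hd : DifferentiableAt ℝ (fderiv ℝ φ) p :=
    ((hφ.fderiv_of_isOpen hU (m := ((⊤ : ℕ∞) : WithTop ℕ∞)) (by simp)).contDiffAt
      (hU.mem_nhds hp)).differentiableAt (by simp)
  have key : ∀ u v : ℝ × ℝ, fderiv ℝ (fun q => fderiv ℝ φ q v) p u =
      fderiv ℝ (fderiv ℝ φ) p u v := by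
    intro u v
    have h1 : HasFDerivAt (fun q => fderiv ℝ φ q v)
        ((ContinuousLinearMap.apply ℝ ℝ v).comp (fderiv ℝ (fderiv ℝ φ) p)) p :=
      (ContinuousLinearMap.apply ℝ ℝ v).hasFDerivAt.comp p hd.hasFDerivAt
    rw [h1.fderiv]
    rfl
  have e1 : D1 (D2 φ) p = fderiv ℝ (fderiv ℝ φ) p (1, 0) (0, 1) := key (1, 0) (0, 1)
  have e2 : D2 (D1 φ) p = fderiv ℝ (fderiv ℝ φ) p (0, 1) (1, 0) := key (0, 1) (1, 0)
  rw [e1, e2]
  exact hsym _ _

private lemma h24_smooth_kap {U : Set (ℝ × ℝ)} {f : ℝ × ℝ → E3} {F : Pl} (h : IsPatch U f F)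
    {O : Set (ℝ × ℝ)} (hOU : O ⊆ U) (hw : ∀ p ∈ O, ev f (wP F) p ≠ 0) :
    ContDiffOn ℝ ((⊤ : ℕ∞) : WithTop ℕ∞) (kap f F) O := by
  have s1 : ContDiffOn ℝ ((⊤ : ℕ∞) : WithTop ℕ∞) (d1 f) U := h24_smooth_fd h.isOpen h.smooth _
  have s2 : ContDiffOn ℝ ((⊤ : ℕ∞) : WithTop ℕ∞) (d2 f) U := h24_smooth_fd h.isOpen h.smooth _
  unfold kap
  refine ContDiffOn.div ?_ ((smooth_ev h.smooth (wP F)).mono hOU) hw
  refine ContDiffOn.sum fun k _ => ?_
  refine ContDiffOn.mul ?_ ((smooth_ev h.smooth _).mono hOU)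
  refine ContDiffOn.sub ?_ ?_
  · exact ((smooth_coord s1 _).mul (smooth_coord s2 _)).mono hOU
  · exact ((smooth_coord s1 _).mul (smooth_coord s2 _)).mono hOU

/-- The Laplacian in terms of tangential derivatives. -/
theorem lapS_tan {U : Set (ℝ × ℝ)} {f : ℝ × ℝ → E3} {F : Pl} (h : IsPatch U f F)
    {O : Set (ℝ × ℝ)} (hO : IsOpen O) (hOU : O ⊆ U) (hw : ∀ p ∈ O, ev f (wP F) p ≠ 0)
    {ψ : ℝ × ℝ → ℝ} {A B : Fin 3 → ℝ × ℝ → ℝ}
    (hψ : ContDiffOn ℝ ((⊤ : ℕ∞) : WithTop ℕ∞) ψ O)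
    (hA : ∀ k, ContDiffOn ℝ ((⊤ : ℕ∞) : WithTop ℕ∞) (A k) O)
    (h1 : ∀ p ∈ O, ∀ k, kap f F p * A k p = d2 f p k * D1 ψ p - d1 f p k * D2 ψ p)
    (h2 : ∀ p ∈ O, ∀ k, kap f F p * B k p = d2 f p k * D1 (A k) p - d1 f p k * D2 (A k) p)
    {p : ℝ × ℝ} (hp : p ∈ O) :
    lapS f ψ p = -(ev f (wP F) p)⁻¹ *
      (∑ k, B k p - (2 * ev f (wP F) p)⁻¹ * ∑ k, ev f (T F k (wP F)) p * A k p) := by
  have hpU : p ∈ U := hOU hp
  have s1 : ContDiffOn ℝ ((⊤ : ℕ∞) : WithTop ℕ∞) (d1 f) U := h24_smooth_fd h.isOpen h.smooth _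
  have s2 : ContDiffOn ℝ ((⊤ : ℕ∞) : WithTop ℕ∞) (d2 f) U := h24_smooth_fd h.isOpen h.smooth _
  have sa : ∀ k, DifferentiableAt ℝ (fun q => d1 f q k) p := fun k =>
    h24_diff h.isOpen (smooth_coord s1 k) hpU
  have sb : ∀ k, DifferentiableAt ℝ (fun q => d2 f q k) p := fun k =>
    h24_diff h.isOpen (smooth_coord s2 k) hpU
  have sA : ∀ k, DifferentiableAt ℝ (A k) p := fun k => h24_diff hO (hA k) hp
  obtain ⟨_, _, _, _, hAi⟩ := smooth_coeff h.isOpen h.smooth h.immersion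
  set τ : ℝ × ℝ → ℝ := fun q => (area f q)⁻¹ * kap f F q with hτ
  have sτ : DifferentiableAt ℝ τ p :=
    h24_diff hO ((hAi.mono hOU).mul (h24_smooth_kap h hOU hw)) hp
  have sw : DifferentiableAt ℝ (ev f (wP F)) p :=
    h24_diff h.isOpen (smooth_ev h.smooth (wP F)) hpU
  -- the two fluxes
  have f1 : ∀ q ∈ O, (area f q)⁻¹ * (cG f q * D1 ψ q - cF f q * D2 ψ q) =
      τ q * ∑ k, d2 f q k * A k q := by
    intro q hq
    rw [h24_cG, h24_cF, hτ]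
    have e0 := h1 q hq 0
    have e1 := h1 q hq 1
    have e2 := h1 q hq 2
    simp only [Fin.sum_univ_three]
    linear_combination (-(area f q)⁻¹ * d2 f q 0) * e0 + (-(area f q)⁻¹ * d2 f q 1) * e1 +
      (-(area f q)⁻¹ * d2 f q 2) * e2
  have f2 : ∀ q ∈ O, (area f q)⁻¹ * (cE f q * D2 ψ q - cF f q * D1 ψ q) =
      (-1) * (τ q * ∑ k, d1 f q k * A k q) := by
    intro q hq
    rw [h24_cE, h24_cF, hτ]
    have e0 := h1 q hq 0
    have e1 := h1 q hq 1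
    have e2 := h1 q hq 2
    simp only [Fin.sum_univ_three]
    linear_combination ((area f q)⁻¹ * d1 f q 0) * e0 + ((area f q)⁻¹ * d1 f q 1) * e1 +
      ((area f q)⁻¹ * d1 f q 2) * e2
  have sS1 : DifferentiableAt ℝ (fun q => ∑ k, d2 f q k * A k q) p :=
    DifferentiableAt.fun_sum fun k _ => (sb k).mul (sA k)
  have sS2 : DifferentiableAt ℝ (fun q => ∑ k, d1 f q k * A k q) p :=
    DifferentiableAt.fun_sum fun k _ => (sa k).mul (sA k)
  have g1 : D1 (fun q => (area f q)⁻¹ * (cG f q * D1 ψ q - cF f q * D2 ψ q)) p =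
      τ p * (∑ k, (d2 f p k * D1 (A k) p + A k p * D1 (fun q => d2 f q k) p)) +
        (∑ k, d2 f p k * A k p) * D1 τ p := by
    rw [h24_D1_congr hO f1 hp, h24_D1_mul sτ sS1,
      h24_D1_sum (fun k q => d2 f q k) A sb sA]
  have g2 : D2 (fun q => (area f q)⁻¹ * (cE f q * D2 ψ q - cF f q * D1 ψ q)) p =
      -(τ p * (∑ k, (d1 f p k * D2 (A k) p + A k p * D2 (fun q => d1 f q k) p)) +
        (∑ k, d1 f p k * A k p) * D2 τ p) := by
    have sP : DifferentiableAt ℝ (fun q => τ q * ∑ k, d1 f q k * A k q) p := sτ.mul sS2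
    rw [h24_D2_congr hO f2 hp, h24_D2_mul (differentiableAt_const (-1 : ℝ)) sP,
      h24_D2_mul sτ sS2, h24_D2_sum (fun k q => d1 f q k) A sa sA]
    have hz : D2 (fun _ : ℝ × ℝ => (-1 : ℝ)) p = 0 := by
      unfold D2
      simp
    rw [hz]
    ring
  have hmix : ∀ k, D1 (fun q => d2 f q k) p = D2 (fun q => d1 f q k) p := by
    intro k
    rw [h24_D1_congr h.isOpen (χ := D2 (fun q => f q k))
        (fun q hq => d2_apply h.isOpen h.smooth hq k) hpU,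
      h24_D2_congr h.isOpen (χ := D1 (fun q => f q k))
        (fun q hq => d1_apply h.isOpen h.smooth hq k) hpU]
    exact h24_mixed h.isOpen (smooth_coord h.smooth k) hpU
  -- the derivative of `τ`
  have hτw : ∀ q ∈ O, (τ q * τ q) * ev f (wP F) q = 1 := by
    intro q hq
    have ha := (area_pos h.immersion (hOU hq)).ne'
    have hk := (kap_sq h (hOU hq) (hw q hq)).1
    simp only [hτ]
    field_simp
    linear_combination hk
  have hwp := hw p hp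
  have sττ : DifferentiableAt ℝ (fun q => τ q * τ q) p := sτ.mul sτ
  have k1 : (τ p * τ p) * D1 (ev f (wP F)) p + ev f (wP F) p * (τ p * D1 τ p + τ p * D1 τ p)
      = 0 := by
    have e := h24_D1_congr hO (χ := fun _ => 1) hτw hp
    rw [h24_D1_mul sττ sw, h24_D1_mul sτ sτ] at e
    rw [e]
    unfold D1
    simp
  have k2 : (τ p * τ p) * D2 (ev f (wP F)) p + ev f (wP F) p * (τ p * D2 τ p + τ p * D2 τ p)
      = 0 := by
    have e := h24_D2_congr hO (χ := fun _ => 1) hτw hp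
    rw [h24_D2_mul sττ sw, h24_D2_mul sτ sτ] at e
    rw [e]
    unfold D2
    simp
  have hτ0 : τ p ≠ 0 := by
    intro h0
    have := hτw p hp
    rw [h0] at this
    simp at this
  have hk0 : kap f F p ≠ 0 := (kap_sq h hpU hwp).2
  have t0 := tan_ev h hpU hwp (wP F) 0
  have t1 := tan_ev h hpU hwp (wP F) 1
  have t2 := tan_ev h hpU hwp (wP F) 2
  have b0 := h2 p hp 0
  have b1 := h2 p hp 1
  have b2 := h2 p hp 2
  have m0 := hmix 0
  have m1 := hmix 1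
  have m2 := hmix 2
  have hww := hτw p hp
  have d1τ : D1 τ p = -(τ p * D1 (ev f (wP F)) p * (2 * ev f (wP F) p)⁻¹) := by
    have h2w : (2 * ev f (wP F) p) ≠ 0 := mul_ne_zero two_ne_zero hwp
    have h3 : τ p * (D1 τ p * (2 * ev f (wP F) p)) = τ p * (-(τ p * D1 (ev f (wP F)) p)) := by
      linear_combination k1
    have h4 := mul_left_cancel₀ hτ0 h3
    rw [eq_comm, ← neg_mul, ← div_eq_mul_inv, div_eq_iff h2w, h4]
  have d2τ : D2 τ p = -(τ p * D2 (ev f (wP F)) p * (2 * ev f (wP F) p)⁻¹) := by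
    have h2w : (2 * ev f (wP F) p) ≠ 0 := mul_ne_zero two_ne_zero hwp
    have h3 : τ p * (D2 τ p * (2 * ev f (wP F) p)) = τ p * (-(τ p * D2 (ev f (wP F)) p)) := by
      linear_combination k2
    have h4 := mul_left_cancel₀ hτ0 h3
    rw [eq_comm, ← neg_mul, ← div_eq_mul_inv, div_eq_iff h2w, h4]
  have hατ : (area f p)⁻¹ * τ p * kap f F p = (ev f (wP F) p)⁻¹ := by
    have h3 : (area f p)⁻¹ * τ p * kap f F p = τ p * τ p := by
      simp only [hτ]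
      ring
    rw [h3]
    exact eq_inv_of_mul_eq_one_left hww
  unfold lapS
  rw [g1, g2, d1τ, d2τ, ← hατ]
  simp only [Fin.sum_univ_three]
  generalize (2 * ev f (wP F) p)⁻¹ = iw
  linear_combination ((area f p)⁻¹ * τ p) * b0 + ((area f p)⁻¹ * τ p) * b1 +
    ((area f p)⁻¹ * τ p) * b2 - ((area f p)⁻¹ * τ p * A 0 p) * m0 -
    ((area f p)⁻¹ * τ p * A 1 p) * m1 - ((area f p)⁻¹ * τ p * A 2 p) * m2 -
    ((area f p)⁻¹ * τ p * iw * A 0 p) * t0 - ((area f p)⁻¹ * τ p * iw * A 1 p) * t1 -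
    ((area f p)⁻¹ * τ p * iw * A 2 p) * t2

end Pool.Agent.Helper60.AS
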